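import Pool.Agent.Lib.MP_f1864b_gt.Num.Defs

set_option autoImplicit false

/-!
The ring `ℤ[ζ]` in `ℂ × ℂ`: integral basis, discreteness, norm inequality.
-/

namespace Pool.Agent.Dold.Num

open Complex Polynomial Matrix

theorem ze_prim : IsPrimitiveRoot ze 5 := by
  have := Complex.isPrimitiveRoot_exp 5 (by norm_num)
  unfold ze
  exact_mod_cast this

theorem ze2_prim : IsPrimitiveRoot (ze ^ 2) 5 :=
  ze_prim.pow_of_coprime 2 (by norm_num)

theorem sum_pow_zero {z : ℂ} (hz : IsPrimitiveRoot z 5) :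
    1 + z + z ^ 2 + z ^ 3 + z ^ 4 = 0 := by
  have h := hz.geom_sum_eq_zero (by norm_num)
  simpa [Finset.sum_range_succ] using h

theorem om_sum : 1 + om + om ^ 2 + om ^ 3 + om ^ 4 = 0 := by
  unfold om
  ext
  · simpa using sum_pow_zero ze_prim
  · simpa using sum_pow_zero ze2_prim

theorem zO_coe : (zO : ℂ × ℂ) = om := rfl

theorem s1_zO : s1 zO = ze := rfl

theorem s2_zO : s2 zO = ze ^ 2 := rfl

theorem s1_apply (x : OO) : s1 x = (x : ℂ × ℂ).1 := rfl

theorem s2_apply (x : OO) : s2 x = (x : ℂ × ℂ).2 := rfl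

theorem cj_coe (x : OO) : (cj x : ℂ × ℂ) = star (x : ℂ × ℂ) := rfl

theorem s1_cj (x : OO) : s1 (cj x) = (starRingEnd ℂ) (s1 x) := rfl

theorem s2_cj (x : OO) : s2 (cj x) = (starRingEnd ℂ) (s2 x) := rfl

theorem cj_cj (x : OO) : cj (cj x) = x := by
  apply Subtype.ext
  rw [cj_coe, cj_coe, star_star]

theorem zO_sum : 1 + zO + zO ^ 2 + zO ^ 3 + zO ^ 4 = 0 := by
  apply Subtype.ext
  push_cast
  exact om_sum

theorem zO_pow : zO ^ 5 = 1 := by
  apply Subtype.ext
  push_cast
  exact om_pow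

theorem cj_zO : cj zO = zO ^ 4 := by
  apply Subtype.ext
  push_cast
  exact star_om

/-! ### The real basis -/

theorem om_lin (r : Fin 4 → ℝ) (h : ∑ j, r j • om ^ (j : ℕ) = 0) : ∀ j, r j = 0 := by
  -- the real polynomial with the coefficients `r` has the four roots `ζ, ζ², ζ³, ζ⁴`
  set p : ℂ[X] := ∑ j : Fin 4, C (r j : ℂ) * X ^ (j : ℕ) with hp
  have h1 : p.eval ze = 0 := by
    have := congrArg Prod.fst h
    rw [hp, Polynomial.eval_finsetSum]
    simpa [Prod.fst_sum, om, Complex.real_smul] using this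
  have h2 : p.eval (ze ^ 2) = 0 := by
    have := congrArg Prod.snd h
    rw [hp, Polynomial.eval_finsetSum]
    simpa [Prod.snd_sum, om, Complex.real_smul] using this
  have hconj : ∀ x : ℂ, p.eval x = 0 → p.eval ((starRingEnd ℂ) x) = 0 := by
    intro x hx
    have := congrArg (starRingEnd ℂ) hx
    rw [hp, Polynomial.eval_finsetSum] at this ⊢
    simpa [map_sum] using this
  have h4 : p.eval (ze ^ 4) = 0 := by
    have := hconj _ h1
    rwa [ze_conj] at this
  have h3 : p.eval (ze ^ 3) = 0 := by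
    have := hconj _ h2
    rw [map_pow, ze_conj] at this
    have h5 : (ze ^ 4) ^ 2 = ze ^ 3 := by
      calc (ze ^ 4) ^ 2 = ze ^ 5 * ze ^ 3 := by ring
        _ = ze ^ 3 := by rw [ze_pow, one_mul]
    rwa [h5] at this
  have hdeg : p.natDegree < 4 := by
    refine lt_of_le_of_lt (Polynomial.natDegree_sum_le_of_forall_le (n := 3) _ _ ?_) (by norm_num)
    intro j _
    exact (Polynomial.natDegree_C_mul_X_pow_le _ _).trans (by omega)
  have hzero : p = 0 := by
    by_contra hne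
    have hroots : ({1, 2, 3, 4} : Finset ℕ).image (fun k => ze ^ k) ⊆ p.roots.toFinset := by
      intro x hx
      simp only [Finset.mem_image, Finset.mem_insert, Finset.mem_singleton] at hx
      obtain ⟨k, hk, rfl⟩ := hx
      rw [Multiset.mem_toFinset, Polynomial.mem_roots hne, Polynomial.IsRoot.def]
      rcases hk with rfl | rfl | rfl | rfl
      · simpa using h1
      · exact h2
      · exact h3
      · exact h4
    have hcard : (({1, 2, 3, 4} : Finset ℕ).image (fun k => ze ^ k)).card = 4 := by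
      rw [Finset.card_image_of_injOn]
      · rfl
      · intro a ha b hb hab
        simp only [Finset.coe_insert, Finset.coe_singleton, Set.mem_insert_iff,
          Set.mem_singleton_iff] at ha hb
        exact ze_prim.pow_inj (by omega) (by omega) hab
    have := (Finset.card_le_card hroots).trans ((Multiset.toFinset_card_le _).trans
      (Polynomial.card_roots' p))
    omega
  intro j
  have hc : p.coeff (j : ℕ) = (r j : ℂ) := by
    rw [hp, Polynomial.finsetSum_coeff]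
    simp only [Polynomial.coeff_C_mul, Polynomial.coeff_X_pow]
    rw [Finset.sum_eq_single j]
    · simp
    · intro b _ hb
      have : (j : ℕ) ≠ (b : ℕ) := fun h => hb (Fin.ext h.symm)
      simp [this]
    · simp
  rw [hzero, Polynomial.coeff_zero] at hc
  exact_mod_cast hc.symm

/-- The real basis `1, ω, ω², ω³` of `ℂ × ℂ`. -/
noncomputable def bO : Module.Basis (Fin 4) ℝ (ℂ × ℂ) :=
  basisOfLinearIndependentOfCardEqFinrank (b := fun j : Fin 4 => om ^ (j : ℕ))
    (Fintype.linearIndependent_iff.2 om_lin) (by simp [Complex.finrank_real_complex])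

theorem bO_apply (j : Fin 4) : bO j = om ^ (j : ℕ) := by
  unfold bO
  rw [coe_basisOfLinearIndependentOfCardEqFinrank]

/-! ### The integral basis -/

theorem mem_OO_of_int (n : Fin 4 → ℤ) : ∑ j, n j • om ^ (j : ℕ) ∈ OO :=
  Subring.sum_mem _ fun _ _ => Subring.zsmul_mem _ (Subring.pow_mem _ om_mem _) _

theorem pow_mem_span (k : ℕ) : ∃ n : Fin 4 → ℤ, om ^ k = ∑ j, n j • om ^ (j : ℕ) := by
  induction k with
  | zero => exact ⟨![1, 0, 0, 0], by simp [Fin.sum_univ_succ]⟩
  | succ k ih =>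
    obtain ⟨n, hn⟩ := ih
    refine ⟨![-n 3, n 0 - n 3, n 1 - n 3, n 2 - n 3], ?_⟩
    have h4 : om ^ 4 = -1 - om - om ^ 2 - om ^ 3 := by
      have := om_sum
      linear_combination this
    rw [pow_succ, hn]
    simp only [Fin.sum_univ_four, Fin.isValue, Fin.val_zero, Fin.val_one, Fin.val_two,
      Matrix.cons_val_zero, Matrix.cons_val_one, Matrix.cons_val, pow_zero, pow_one, zsmul_eq_mul]
    push_cast
    have h3 : ((3 : Fin 4) : ℕ) = 3 := rfl
    rw [h3]
    linear_combination (n 3 : ℂ × ℂ) * h4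

theorem mem_OO_iff (x : ℂ × ℂ) : x ∈ OO ↔ ∃ n : Fin 4 → ℤ, x = ∑ j, n j • om ^ (j : ℕ) := by
  constructor
  · rintro ⟨p, rfl⟩
    change ∃ n : Fin 4 → ℤ, Polynomial.aeval om p = _
    induction p using Polynomial.induction_on' with
    | add p q hp hq =>
      obtain ⟨n, hn⟩ := hp
      obtain ⟨m, hm⟩ := hq
      refine ⟨n + m, ?_⟩
      rw [map_add, hn, hm, ← Finset.sum_add_distrib]
      exact Finset.sum_congr rfl fun j _ => by rw [Pi.add_apply, add_smul]
    | monomial k a =>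
      obtain ⟨n, hn⟩ := pow_mem_span k
      refine ⟨a • n, ?_⟩
      rw [Polynomial.aeval_monomial, hn, Finset.mul_sum]
      refine Finset.sum_congr rfl fun j _ => ?_
      rw [Pi.smul_apply, smul_eq_mul, mul_smul, eq_intCast (algebraMap ℤ (ℂ × ℂ)) a,
        ← zsmul_eq_mul]
  · rintro ⟨n, rfl⟩
    exact mem_OO_of_int n

theorem OO_toAddSubgroup :
    OO.toAddSubgroup = (Submodule.span ℤ (Set.range bO)).toAddSubgroup := by
  ext x
  change x ∈ OO ↔ x ∈ Submodule.span ℤ (Set.range bO)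
  rw [mem_OO_iff, Submodule.mem_span_range_iff_exists_fun]
  constructor
  · rintro ⟨n, rfl⟩
    exact ⟨n, by simp only [bO_apply]⟩
  · rintro ⟨n, rfl⟩
    exact ⟨n, by simp only [bO_apply]⟩

/-! ### Discreteness -/

theorem finite_bounded (C : ℝ) : {x : OO | ‖s1 x‖ ≤ C ∧ ‖s2 x‖ ≤ C}.Finite := by
  have h1 : (Metric.closedBall (0 : ℂ × ℂ) C ∩
      (Submodule.span ℤ (Set.range bO) : Set (ℂ × ℂ))).Finite := by
    have hcl : IsClosed ((Submodule.span ℤ (Set.range bO) : Submodule ℤ (ℂ × ℂ)) :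
        Set (ℂ × ℂ)) :=
      AddSubgroup.isClosed_of_discrete (H := (Submodule.span ℤ (Set.range bO)).toAddSubgroup)
    have hd : IsDiscrete ((Submodule.span ℤ (Set.range bO) : Submodule ℤ (ℂ × ℂ)) :
        Set (ℂ × ℂ)) := isDiscrete_iff_discreteTopology.2
      (inferInstance : DiscreteTopology (Submodule.span ℤ (Set.range bO)))
    exact Metric.finite_isBounded_inter_isClosed hd Metric.isBounded_closedBall hcl
  refine Set.Finite.of_finite_image (f := ((↑) : OO → ℂ × ℂ)) (h1.subset ?_)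
    Subtype.val_injective.injOn
  rintro _ ⟨x, ⟨hx1, hx2⟩, rfl⟩
  refine ⟨?_, ?_⟩
  · rw [mem_closedBall_zero_iff, Prod.norm_def]
    exact max_le hx1 hx2
  · have : (x : ℂ × ℂ) ∈ OO.toAddSubgroup := x.2
    rw [OO_toAddSubgroup] at this
    exact this

/-! ### The real subring and the norm -/

/-- The real element `θ = ζ + ζ⁴`. -/
noncomputable def thO : OO := zO + zO ^ 4

theorem al_eq : al = -thO := rfl

theorem exists_coords (x : OO) : ∃ n : Fin 4 → ℤ,
    x = (n 0 : OO) + n 1 * zO + n 2 * zO ^ 2 + n 3 * zO ^ 3 := by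
  obtain ⟨n, hn⟩ := (mem_OO_iff _).1 x.2
  refine ⟨n, Subtype.ext ?_⟩
  rw [hn, Fin.sum_univ_four]
  push_cast
  simp only [zO_coe, zsmul_eq_mul, Fin.isValue, Fin.val_zero, Fin.val_one, Fin.val_two, pow_zero,
    pow_one, mul_one]
  rfl

theorem mul_cj_eq (n : Fin 4 → ℤ) :
    ((n 0 : OO) + n 1 * zO + n 2 * zO ^ 2 + n 3 * zO ^ 3) *
      cj ((n 0 : OO) + n 1 * zO + n 2 * zO ^ 2 + n 3 * zO ^ 3) =
    (((n 0 ^ 2 + n 1 ^ 2 + n 2 ^ 2 + n 3 ^ 2) - (n 2 * n 0 + n 3 * n 1) - n 3 * n 0 : ℤ) : OO) +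
      (((n 1 * n 0 + n 2 * n 1 + n 3 * n 2) - (n 2 * n 0 + n 3 * n 1) - n 3 * n 0 : ℤ) : OO) *
        thO := by
  have h5 := zO_pow
  have hs := zO_sum
  have hc : cj ((n 0 : OO) + n 1 * zO + n 2 * zO ^ 2 + n 3 * zO ^ 3) =
      (n 0 : OO) + n 1 * zO ^ 4 + n 2 * zO ^ 3 + n 3 * zO ^ 2 := by
    simp only [map_add, map_mul, map_pow, map_intCast, cj_zO]
    linear_combination ((n 2 : OO) * zO ^ 3 + (n 3 : OO) * (zO ^ 2 + zO ^ 7)) * h5
  rw [hc]
  unfold thO
  push_cast
  linear_combination (((n 1 : OO) ^ 2 + (n 2 : OO) ^ 2 + (n 3 : OO) ^ 2 +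
    ((n 1 : OO) * n 2 + n 2 * n 3) * zO + n 1 * n 3 * zO ^ 2)) * h5 +
    ((n 2 : OO) * n 0 + n 3 * n 1 + n 3 * n 0) * hs

theorem exists_mul_cj (x : OO) : ∃ a b : ℤ, x * cj x = (a : OO) + (b : OO) * thO := by
  obtain ⟨n, hn⟩ := exists_coords x
  rw [hn]
  exact ⟨_, _, mul_cj_eq n⟩

theorem thO_sq : thO ^ 2 = 1 - thO := by
  have h5 := zO_pow
  have hs := zO_sum
  unfold thO
  linear_combination (2 + zO ^ 3) * h5 + hs

theorem int_lin (m : Fin 4 → ℤ)
    (h : (m 0 : OO) + m 1 * zO + m 2 * zO ^ 2 + m 3 * zO ^ 3 = 0) : ∀ j, m j = 0 := by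
  have h1 := congrArg (Subtype.val : OO → ℂ × ℂ) h
  push_cast at h1
  rw [zO_coe] at h1
  have h2 := om_lin (fun j => (m j : ℝ)) (by
    rw [Fin.sum_univ_four]
    simp only [Fin.isValue, Fin.val_zero, Fin.val_one, Fin.val_two, pow_zero, pow_one]
    have h3 : ((3 : Fin 4) : ℕ) = 3 := rfl
    rw [h3]
    have e : ∀ (k : ℤ) (y : ℂ × ℂ), ((k : ℝ)) • y = (k : ℂ × ℂ) * y := by
      intro k y
      ext <;> simp
    rw [e, e, e, e, mul_one]
    exact h1)
  intro j
  exact_mod_cast h2 j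

theorem exists_real (x : OO) (hx : cj x = x) : ∃ a b : ℤ, x = (a : OO) + (b : OO) * thO := by
  obtain ⟨n, hn⟩ := exists_coords x
  have h5 := zO_pow
  have hs := zO_sum
  have hc : cj x = (n 0 : OO) + n 1 * zO ^ 4 + n 2 * zO ^ 3 + n 3 * zO ^ 2 := by
    rw [hn]
    simp only [map_add, map_mul, map_pow, map_intCast, cj_zO]
    linear_combination ((n 2 : OO) * zO ^ 3 + (n 3 : OO) * (zO ^ 2 + zO ^ 7)) * h5
  have hl := int_lin ![-n 1, -2 * n 1, n 3 - n 1 - n 2, n 2 - n 1 - n 3] (by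
    have h : cj x - x = 0 := by rw [hx, sub_self]
    rw [hc] at h
    rw [hn] at h
    simp only [Fin.isValue, Matrix.cons_val_zero, Matrix.cons_val_one, Matrix.cons_val]
    push_cast
    linear_combination h - (n 1 : OO) * hs)
  have h0 := hl 0
  have h2 := hl 2
  simp only [Fin.isValue, Matrix.cons_val_zero, Matrix.cons_val] at h0 h2
  have h1 : n 1 = 0 := by omega
  have h3 : n 3 = n 2 := by omega
  refine ⟨n 0 - n 2, -n 2, ?_⟩
  rw [hn, h1, h3]
  unfold thO
  push_cast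
  linear_combination (n 2 : OO) * hs

/-- The value of `θ` at the first place. -/
noncomputable def th : ℝ := (Real.sqrt 5 - 1) / 2

theorem th_sq : th ^ 2 = 1 - th := by
  unfold th
  have := Real.sq_sqrt (show (0 : ℝ) ≤ 5 by norm_num)
  nlinarith

theorem th_pos : 0 < th := by
  unfold th
  have : (1 : ℝ) < Real.sqrt 5 := by
    rw [Real.lt_sqrt (by norm_num)]
    norm_num
  linarith

theorem th_lt_one : th < 1 := by
  have := th_sq
  have := th_pos
  nlinarith

theorem s1_thO : s1 thO = (th : ℂ) := by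
  have h1 : s1 thO = ze + ze ^ 4 := rfl
  rw [h1, ← ze_conj, Complex.add_conj]
  congr 1
  set t : ℝ := 2 * ze.re with ht
  have h2 : t ^ 2 = 1 - t := by
    have h3 := congrArg s1 thO_sq
    rw [map_pow, map_sub, map_one, h1, ← ze_conj, Complex.add_conj] at h3
    exact_mod_cast h3
  have h4 : 0 < t := by
    have h5 : ze.re = Real.cos (2 * Real.pi / 5) := by
      unfold ze
      have : (2 * (Real.pi : ℂ) * Complex.I / 5) = ((2 * Real.pi / 5 : ℝ) : ℂ) * Complex.I := by
        push_cast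
        ring
      rw [this, Complex.exp_ofReal_mul_I_re]
    rw [ht, h5]
    have := Real.cos_pos_of_mem_Ioo (x := 2 * Real.pi / 5)
      ⟨by have := Real.pi_pos; linarith, by have := Real.pi_pos; linarith⟩
    linarith
  have h6 := th_sq
  have h7 := th_pos
  have h8 : (t - th) * (t + th + 1) = 0 := by nlinarith
  rcases mul_eq_zero.1 h8 with h | h
  · linarith
  · linarith

theorem s2_thO : s2 thO = ((-1 - th : ℝ) : ℂ) := by
  have h1 : s2 thO = ze ^ 2 + (ze ^ 2) ^ 4 := rfl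
  have h2 : (ze ^ 2) ^ 4 = ze ^ 3 := by
    calc (ze ^ 2) ^ 4 = ze ^ 5 * ze ^ 3 := by ring
      _ = ze ^ 3 := by rw [ze_pow, one_mul]
  have h3 : (th : ℂ) = ze + ze ^ 4 := s1_thO.symm
  rw [h1, h2]
  push_cast
  rw [h3]
  have := sum_pow_zero ze_prim
  linear_combination this

theorem norm_sq_s1 {x : OO} {a b : ℤ} (h : x * cj x = (a : OO) + (b : OO) * thO) :
    ‖s1 x‖ ^ 2 = a + b * th := by
  have h1 := congrArg s1 h
  rw [map_mul, s1_cj, Complex.mul_conj, map_add, map_mul, map_intCast, map_intCast, s1_thO] at h1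
  rw [← Complex.normSq_eq_norm_sq]
  exact_mod_cast h1

theorem norm_sq_s2 {x : OO} {a b : ℤ} (h : x * cj x = (a : OO) + (b : OO) * thO) :
    ‖s2 x‖ ^ 2 = a + b * (-1 - th) := by
  have h1 := congrArg s2 h
  rw [map_mul, s2_cj, Complex.mul_conj, map_add, map_mul, map_intCast, map_intCast, s2_thO] at h1
  rw [← Complex.normSq_eq_norm_sq]
  exact_mod_cast h1

theorem th_irrational : Irrational th := by
  have h := Nat.Prime.irrational_sqrt (show Nat.Prime 5 by norm_num)
  intro hq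
  obtain ⟨q, hq⟩ := hq
  apply h
  refine ⟨2 * q + 1, ?_⟩
  push_cast
  rw [hq]
  unfold th
  ring

theorem int_th_eq_zero {a b : ℤ} (h : (a : ℝ) + b * th = 0) : a = 0 ∧ b = 0 := by
  by_cases hb : b = 0
  · subst hb
    simp at h
    exact ⟨by exact_mod_cast h, rfl⟩
  · exfalso
    apply th_irrational
    refine ⟨-a / b, ?_⟩
    have hb' : (b : ℝ) ≠ 0 := by exact_mod_cast hb
    push_cast
    field_simp
    linarith

theorem norm_ge (x : OO) (hx : x ≠ 0) : 1 ≤ ‖s1 x‖ * ‖s2 x‖ := by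
  obtain ⟨a, b, hab⟩ := exists_mul_cj x
  have h1 := norm_sq_s1 hab
  have h2 := norm_sq_s2 hab
  have h3 : (‖s1 x‖ * ‖s2 x‖) ^ 2 = ((a ^ 2 - a * b - b ^ 2 : ℤ) : ℝ) := by
    rw [mul_pow, h1, h2]
    push_cast
    linear_combination (-(b : ℝ) ^ 2) * th_sq
  have h4 : (a ^ 2 - a * b - b ^ 2 : ℤ) ≠ 0 := by
    intro h0
    rw [h0, Int.cast_zero, sq_eq_zero_iff] at h3
    apply hx
    have key : a = 0 ∧ b = 0 := by
      rcases mul_eq_zero.1 h3 with h | h
      · rw [h] at h1
        exact int_th_eq_zero (by linarith)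
      · rw [h] at h2
        have := int_th_eq_zero (a := a - b) (b := -b) (by push_cast; linarith)
        omega
    obtain ⟨rfl, rfl⟩ := key
    have e1 : s1 x = 0 := by
      have : ‖s1 x‖ ^ 2 = 0 := by rw [h1]; simp
      simpa using this
    have e2 : s2 x = 0 := by
      have : ‖s2 x‖ ^ 2 = 0 := by rw [h2]; simp
      simpa using this
    exact Subtype.ext (Prod.ext e1 e2)
  have h5 : (0 : ℝ) ≤ ((a ^ 2 - a * b - b ^ 2 : ℤ) : ℝ) := by
    rw [← h3]; positivity
  have h6 : (1 : ℤ) ≤ a ^ 2 - a * b - b ^ 2 := by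
    have : (0 : ℤ) ≤ a ^ 2 - a * b - b ^ 2 := by exact_mod_cast h5
    omega
  have h7 : (1 : ℝ) ≤ (‖s1 x‖ * ‖s2 x‖) ^ 2 := by
    rw [h3]
    exact_mod_cast h6
  have h8 : 0 ≤ ‖s1 x‖ * ‖s2 x‖ := by positivity
  nlinarith

theorem s1_injective : Function.Injective s1 := by
  rw [injective_iff_map_eq_zero]
  intro x hx
  by_contra hne
  have := norm_ge x hne
  rw [hx] at this
  simp at this
  linarith

theorem s2_injective : Function.Injective s2 := by
  rw [injective_iff_map_eq_zero]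
  intro x hx
  by_contra hne
  have := norm_ge x hne
  rw [hx] at this
  simp at this
  linarith

instance : IsDomain OO := s1_injective.isDomain s1

end Pool.Agent.Dold.Num
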