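import Mathlib

set_option autoImplicit false

/-!
The arithmetic group of the example: `O = ℤ[ζ₅]` realised in `ℂ × ℂ` by its two complex places,
the hermitian form `diag(1, 1, α)`, `α = (1 - √5)/2`, its unitary group and the principal
congruence subgroup of level `(1 - ζ)²`.
-/

namespace Pool.Agent.Dold.Num

open Complex Polynomial Matrix

/-- The primitive fifth root of unity `exp (2 π i / 5)`. -/
noncomputable def ze : ℂ := Complex.exp (2 * Real.pi * Complex.I / 5)

/-- The two complex places of `ζ`. -/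
noncomputable def om : ℂ × ℂ := (ze, ze ^ 2)

/-- The ring `ℤ[ζ]`, embedded in `ℂ × ℂ` by its two complex places. -/
noncomputable def OO : Subring (ℂ × ℂ) :=
  (Polynomial.aeval om : ℤ[X] →ₐ[ℤ] ℂ × ℂ).range.toSubring

/-- The first place. -/
noncomputable def s1 : OO →+* ℂ := (RingHom.fst ℂ ℂ).comp OO.subtype

/-- The second place. -/
noncomputable def s2 : OO →+* ℂ := (RingHom.snd ℂ ℂ).comp OO.subtype

theorem om_mem : om ∈ OO := ⟨X, by simp⟩

/-- The element `ζ` of `O`. -/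
noncomputable def zO : OO := ⟨om, om_mem⟩

theorem ze_pow : ze ^ 5 = 1 := by
  unfold ze
  rw [← Complex.exp_nat_mul]
  convert Complex.exp_two_pi_mul_I using 2
  push_cast
  ring

theorem om_pow : om ^ 5 = 1 := by
  unfold om
  ext
  · simp [ze_pow]
  · simp only [Prod.pow_snd, Prod.snd_one]
    calc (ze ^ 2) ^ 5 = (ze ^ 5) ^ 2 := by ring
      _ = 1 := by rw [ze_pow]; norm_num

theorem ze_conj : (starRingEnd ℂ) ze = ze ^ 4 := by
  have h1 : ze * (starRingEnd ℂ) ze = 1 := by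
    unfold ze
    rw [← Complex.exp_conj, ← Complex.exp_add]
    simp only [map_div₀, map_mul, Complex.conj_I, Complex.conj_ofReal, map_ofNat]
    rw [show (2 * (Real.pi : ℂ) * Complex.I / 5 + 2 * Real.pi * -Complex.I / 5) = 0 by ring]
    exact Complex.exp_zero
  have h2 : ze * ze ^ 4 = 1 := by
    rw [← ze_pow]; ring
  have h3 : ze ≠ 0 := by
    intro h; rw [h] at h1; simp at h1
  exact mul_left_cancel₀ h3 (h1.trans h2.symm)

theorem star_om : star om = om ^ 4 := by
  unfold om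
  ext
  · simpa using ze_conj
  · simp only [Prod.snd_star, Prod.pow_snd]
    have := ze_conj
    calc star (ze ^ 2) = (starRingEnd ℂ ze) ^ 2 := by simp
      _ = (ze ^ 4) ^ 2 := by rw [ze_conj]
      _ = (ze ^ 2) ^ 4 := by ring

theorem star_mem {x : ℂ × ℂ} (hx : x ∈ OO) : star x ∈ OO := by
  obtain ⟨p, rfl⟩ := hx
  refine ⟨p.comp (X ^ 4), ?_⟩
  have h2 : (starRingEnd (ℂ × ℂ)) om = om ^ 4 := star_om
  change Polynomial.aeval om (p.comp (X ^ 4)) = (starRingEnd (ℂ × ℂ)) (Polynomial.aeval om p)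
  rw [Polynomial.aeval_comp, map_pow, Polynomial.aeval_X, Polynomial.aeval_def,
    Polynomial.aeval_def, Polynomial.hom_eval₂, h2]
  congr 1
  exact Subsingleton.elim _ _

/-- Complex conjugation of `O`. -/
noncomputable def cj : OO →+* OO where
  toFun x := ⟨star (x : ℂ × ℂ), star_mem x.2⟩
  map_one' := by ext <;> simp
  map_mul' x y := by ext <;> simp
  map_zero' := by ext <;> simp
  map_add' x y := by ext <;> simp

/-- The prime `1 - ζ`. -/
noncomputable def piO : OO := 1 - zO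

/-- The unit `α = -(ζ + ζ⁴)`, at the first place `(1 - √5)/2`, at the second `(1 + √5)/2`. -/
noncomputable def al : OO := -(zO + zO ^ 4)

/-- The hermitian form. -/
noncomputable def hO : Matrix (Fin 3) (Fin 3) OO := Matrix.diagonal ![1, 1, al]

/-- The unitary group of the form. -/
noncomputable def Lam : Subgroup (GL (Fin 3) OO) where
  carrier := {g | ((g : Matrix (Fin 3) (Fin 3) OO).map cj)ᵀ * hO * g = hO}
  one_mem' := by
    simp only [Set.mem_ofPred_eq, Units.val_one]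
    rw [Matrix.map_one _ (map_zero cj) (map_one cj)]
    simp
  mul_mem' := by
    intro g k hg hk
    simp only [Set.mem_ofPred_eq, Units.val_mul] at hg hk ⊢
    rw [Matrix.map_mul, Matrix.transpose_mul]
    calc ((k : Matrix (Fin 3) (Fin 3) OO).map cj)ᵀ * ((g : Matrix (Fin 3) (Fin 3) OO).map cj)ᵀ *
          hO * (g * k)
        = ((k : Matrix (Fin 3) (Fin 3) OO).map cj)ᵀ *
          (((g : Matrix (Fin 3) (Fin 3) OO).map cj)ᵀ * hO * g) * k := by
          simp only [Matrix.mul_assoc]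
      _ = hO := by rw [hg, hk]
  inv_mem' := by
    intro g hg
    simp only [Set.mem_ofPred_eq] at hg ⊢
    have h1 : (g : Matrix (Fin 3) (Fin 3) OO) * ((g⁻¹ : GL (Fin 3) OO) : Matrix (Fin 3) (Fin 3) OO)
        = 1 := by
      rw [← Units.val_mul, mul_inv_cancel, Units.val_one]
    have h2 : (((g⁻¹ : GL (Fin 3) OO) : Matrix (Fin 3) (Fin 3) OO).map cj)ᵀ *
        ((g : Matrix (Fin 3) (Fin 3) OO).map cj)ᵀ = 1 := by
      rw [← Matrix.transpose_mul, ← Matrix.map_mul, h1, Matrix.map_one _ (map_zero cj) (map_one cj),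
        Matrix.transpose_one]
    calc (((g⁻¹ : GL (Fin 3) OO) : Matrix (Fin 3) (Fin 3) OO).map cj)ᵀ * hO *
          ((g⁻¹ : GL (Fin 3) OO) : Matrix (Fin 3) (Fin 3) OO)
        = (((g⁻¹ : GL (Fin 3) OO) : Matrix (Fin 3) (Fin 3) OO).map cj)ᵀ *
          (((g : Matrix (Fin 3) (Fin 3) OO).map cj)ᵀ * hO * g) *
          ((g⁻¹ : GL (Fin 3) OO) : Matrix (Fin 3) (Fin 3) OO) := by rw [hg]
      _ = ((((g⁻¹ : GL (Fin 3) OO) : Matrix (Fin 3) (Fin 3) OO).map cj)ᵀ *
          ((g : Matrix (Fin 3) (Fin 3) OO).map cj)ᵀ) * hO * ((g : Matrix (Fin 3) (Fin 3) OO) *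
          ((g⁻¹ : GL (Fin 3) OO) : Matrix (Fin 3) (Fin 3) OO)) := by
          simp only [Matrix.mul_assoc]
      _ = hO := by rw [h1, h2, Matrix.one_mul, Matrix.mul_one]

/-- The principal congruence subgroup of level `(1 - ζ)²`. -/
noncomputable def Gam0 : Subgroup (GL (Fin 3) OO) where
  carrier := {g | g ∈ Lam ∧ ∀ i j, piO ^ 2 ∣ ((g : Matrix (Fin 3) (Fin 3) OO) - 1) i j}
  one_mem' := by
    refine ⟨Lam.one_mem, fun i j => ?_⟩
    simp
  mul_mem' := by
    rintro g k ⟨hg1, hg2⟩ ⟨hk1, hk2⟩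
    refine ⟨Lam.mul_mem hg1 hk1, fun i j => ?_⟩
    have h : ((g * k : GL (Fin 3) OO) : Matrix (Fin 3) (Fin 3) OO) - 1 =
        ((g : Matrix (Fin 3) (Fin 3) OO) - 1) * k + ((k : Matrix (Fin 3) (Fin 3) OO) - 1) := by
      rw [Units.val_mul, sub_mul, one_mul]
      abel
    rw [h, Matrix.add_apply, Matrix.mul_apply]
    exact dvd_add (Finset.dvd_sum fun l _ => Dvd.dvd.mul_right (hg2 i l) _) (hk2 i j)
  inv_mem' := by
    rintro g ⟨hg1, hg2⟩
    refine ⟨Lam.inv_mem hg1, fun i j => ?_⟩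
    have h1 : (g : Matrix (Fin 3) (Fin 3) OO) * ((g⁻¹ : GL (Fin 3) OO) : Matrix (Fin 3) (Fin 3) OO)
        = 1 := by
      rw [← Units.val_mul, mul_inv_cancel, Units.val_one]
    have h : ((g⁻¹ : GL (Fin 3) OO) : Matrix (Fin 3) (Fin 3) OO) - 1 =
        -(((g : Matrix (Fin 3) (Fin 3) OO) - 1) *
          ((g⁻¹ : GL (Fin 3) OO) : Matrix (Fin 3) (Fin 3) OO)) := by
      rw [sub_mul, one_mul, h1]
      abel
    rw [h, Matrix.neg_apply, Matrix.mul_apply]
    exact (dvd_neg).2 (Finset.dvd_sum fun l _ => Dvd.dvd.mul_right (hg2 i l) _)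

/-- The group of complex matrices which acts on the ball. -/
noncomputable def Gam : Subgroup (GL (Fin 3) ℂ) := Gam0.map (Matrix.GeneralLinearGroup.map s1)

end Pool.Agent.Dold.Num
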