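import Pool.Agent.Lib.MP_f1864b_gt.Num.Unit
import Pool.Agent.Lib.MP_f1864b_gt.Num.Ring

set_option autoImplicit false

/-!
# MP_f1864b_gt: the facts on `ℤ[ζ₅]` for the concrete ring
-/

namespace Pool.Agent.MP_f1864b_gt.Num

open Pool.Agent.Dold.Num

theorem pi4_five : piO ^ 4 * ((1 + zO) * (1 + zO + zO ^ 2) * (1 + zO + zO ^ 2 + zO ^ 3)) = 5 := by
  have hs := zO_sum
  unfold piO
  linear_combination (-4 + 3 * zO + zO ^ 3 - 2 * zO ^ 5 + zO ^ 6) * hs

theorem pi2_five : piO ^ 2 ∣ (5 : OO) := by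
  rw [← pi4_five]
  exact Dvd.dvd.mul_right (pow_dvd_pow _ (by norm_num)) _

theorem zO_pow_congr (k : ℕ) : piO ^ 2 ∣ zO ^ k - (1 - k * piO) := by
  induction k with
  | zero => simp
  | succ k ih =>
    obtain ⟨c, hc⟩ := ih
    refine ⟨zO * c + k, ?_⟩
    have h : zO = 1 - piO := by unfold piO; ring
    have hc' : zO ^ k = piO ^ 2 * c + (1 - k * piO) := by linear_combination hc
    rw [pow_succ, hc']
    push_cast
    linear_combination (1 - (k : OO) * piO) * h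

theorem exists_congr (a : OO) : ∃ s t : ℤ, piO ^ 2 ∣ a - (s + t * piO) ∧
    piO ^ 2 ∣ cj a - (s - t * piO) := by
  obtain ⟨n, hn⟩ := exists_coords a
  refine ⟨n 0 + n 1 + n 2 + n 3, -(n 1 + 2 * n 2 + 3 * n 3), ?_, ?_⟩
  · obtain ⟨c1, h1⟩ := zO_pow_congr 1
    obtain ⟨c2, h2⟩ := zO_pow_congr 2
    obtain ⟨c3, h3⟩ := zO_pow_congr 3
    refine ⟨n 1 * c1 + n 2 * c2 + n 3 * c3, ?_⟩
    rw [hn]
    push_cast at h1 h2 h3 ⊢
    linear_combination (n 1 : OO) * h1 + (n 2 : OO) * h2 + (n 3 : OO) * h3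
  · obtain ⟨c1, h1⟩ := zO_pow_congr 4
    obtain ⟨c2, h2⟩ := zO_pow_congr 3
    obtain ⟨c3, h3⟩ := zO_pow_congr 2
    obtain ⟨f, hf⟩ := pi2_five
    have hcj : cj a = (n 0 : OO) + n 1 * zO ^ 4 + n 2 * zO ^ 3 + n 3 * zO ^ 2 := by
      have h5 := zO_pow
      rw [hn]
      simp only [map_add, map_mul, map_pow, map_intCast, cj_zO]
      linear_combination ((n 2 : OO) * zO ^ 3 + (n 3 : OO) * (zO ^ 7 + zO ^ 2)) * h5
    refine ⟨n 1 * c1 + n 2 * c2 + n 3 * c3 - (n 1 + n 2 + n 3) * piO * f, ?_⟩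
    rw [hcj]
    push_cast at h1 h2 h3 ⊢
    linear_combination (n 1 : OO) * h1 + (n 2 : OO) * h2 + (n 3 : OO) * h3 -
      ((n 1 : OO) + n 2 + n 3) * piO * hf

variable (red : OO →+* ZMod 5) (hred : ∀ x, red x = 0 ↔ piO ∣ x)

include hred in
theorem unit_adj' (a : OO) (ha : piO ^ 2 ∣ a * cj a - 1) :
    ∃ e, e * cj e = 1 ∧ piO ^ 2 ∣ e * a - 1 := by
  obtain ⟨s, t, h1, h2⟩ := exists_congr a
  have h3 : piO ^ 2 ∣ ((s ^ 2 - 1 : ℤ) : OO) := by
    obtain ⟨c1, h1⟩ := h1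
    obtain ⟨c2, h2⟩ := h2
    obtain ⟨c3, h3⟩ := ha
    refine ⟨c3 - (a * c2 + (s - t * piO) * c1) + t ^ 2, ?_⟩
    push_cast
    linear_combination h3 - a * h2 - ((s : OO) - t * piO) * h1
  have h4 : red ((s ^ 2 - 1 : ℤ) : OO) = 0 :=
    (hred _).mpr ((dvd_pow_self _ two_ne_zero).trans h3)
  rw [map_intCast, ZMod.intCast_zmod_eq_zero_iff_dvd] at h4
  obtain ⟨f, hf⟩ := pi2_five
  -- the sign
  have hsign : ∃ ε m : ℤ, ε * ε = 1 ∧ s = ε + 5 * m := by
    obtain ⟨q, hq⟩ := h4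
    have h5 : s % 5 = 1 ∨ s % 5 = 4 := by
      have h6 : (s ^ 2 - 1) % 5 = 0 := by rw [hq]; simp
      have h7 : s % 5 = 0 ∨ s % 5 = 1 ∨ s % 5 = 2 ∨ s % 5 = 3 ∨ s % 5 = 4 := by omega
      rcases h7 with h | h | h | h | h <;>
        simp [pow_two, Int.sub_emod, Int.mul_emod, h] at h6 ⊢
    rcases h5 with h | h
    · exact ⟨1, s / 5, by norm_num, by omega⟩
    · exact ⟨-1, s / 5 + 1, by norm_num, by omega⟩
  obtain ⟨ε, m, hε, hs⟩ := hsign
  obtain ⟨c1, h1⟩ := h1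
  set k : ℕ := ((ε * t) % 5).toNat with hk
  have hk' : (k : ℤ) = (ε * t) % 5 := by
    rw [hk, Int.toNat_of_nonneg (Int.emod_nonneg _ (by norm_num))]
  obtain ⟨c2, h2⟩ := zO_pow_congr k
  have hkt : ∃ l : ℤ, ε * t = k + 5 * l := ⟨(ε * t) / 5, by rw [hk']; omega⟩
  obtain ⟨l, hl⟩ := hkt
  have hεO : (ε : OO) * ε = 1 := by exact_mod_cast congrArg (Int.cast : ℤ → OO) hε
  have hlO : (ε : OO) * t = k + 5 * l := by exact_mod_cast congrArg (Int.cast : ℤ → OO) hl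
  have hsO : (s : OO) = ε + 5 * m := by rw [hs]; push_cast; ring
  refine ⟨ε * zO ^ k, ?_, ?_⟩
  · have h5 : zO ^ k * (zO ^ 4) ^ k = 1 := by
      rw [← mul_pow, show zO * zO ^ 4 = zO ^ 5 by ring, zO_pow, one_pow]
    rw [map_mul, map_intCast, map_pow, cj_zO]
    linear_combination (zO ^ k * (zO ^ 4) ^ k) * hεO + h5
  · -- `ε ζ^k a ≡ ε (1 - k π) (ε + t π) ≡ 1`
    refine ⟨ε * (zO ^ k * c1 + (s + t * piO) * c2) - k ^ 2 +
      (1 - k * piO) * (m * ε + l * piO) * f, ?_⟩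
    linear_combination (ε * zO ^ k) * h1 + ε * (s + t * piO) * h2 +
      (ε * (1 - k * piO)) * hsO + (1 - k * piO) * hεO + ((1 - k * piO) * piO) * hlO +
      ((1 - k * piO) * (m * ε + l * piO)) * hf

/-- The facts for the ring `ℤ[ζ₅]`. -/
noncomputable def numData : NumData OO where
  cj := cj
  cj_cj := cj_cj
  s1 := s1
  s2 := s2
  s1_inj := s1_injective
  s2_inj := s2_injective
  s1_cj := s1_cj
  s2_cj := s2_cj
  al := al
  al_sq := by
    rw [al_eq]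
    linear_combination thO_sq
  cj_al := by
    rw [al_eq, map_neg]
    unfold thO
    rw [map_add, map_pow, cj_zO]
    linear_combination (-(zO ^ 11 + zO ^ 6 + zO)) * zO_pow
  s1_al := by
    rw [al_eq, map_neg, s1_thO]
    push_cast
    rfl
  s2_al := by
    rw [al_eq, map_neg, s2_thO]
    push_cast
    change -(-1 - ((th : ℝ) : ℂ)) = 1 + ((rho : ℝ) : ℂ)
    have : th = rho := rfl
    rw [this]
    ring
  real := by
    intro x hx
    obtain ⟨a, b, h⟩ := exists_real x hx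
    refine ⟨a, -b, ?_⟩
    rw [h, al_eq]
    push_cast
    ring
  pi := piO
  red := red
  red_eq_zero := hred
  red_cj := by
    intro x
    have hz : red zO = 1 := by
      have h := (hred piO).mpr dvd_rfl
      unfold piO at h
      rw [map_sub, map_one, sub_eq_zero] at h
      exact h.symm
    obtain ⟨n, hn⟩ := exists_coords x
    rw [hn]
    simp only [map_add, map_mul, map_pow, map_intCast, cj_zO, hz, one_pow]
  red_al := by
    have hz : red zO = 1 := by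
      have h := (hred piO).mpr dvd_rfl
      unfold piO at h
      rw [map_sub, map_one, sub_eq_zero] at h
      exact h.symm
    unfold al
    rw [map_neg, map_add, map_pow, hz]
    decide
  unit_adj := unit_adj' red hred

end Pool.Agent.MP_f1864b_gt.Num
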