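import Pool.Agent.Lib.MP_f1864b_gt.Num.Unit

set_option autoImplicit false

/-!
# MP_f1864b_gt: elementary facts on the hermitian form, the symmetries `sM` and the action
-/

namespace Pool.Agent.MP_f1864b_gt.Num

open Complex Matrix

/-- The complex hermitian form. -/
noncomputable def hf (x y : Fin 3 → ℂ) : ℂ :=
  starRingEnd ℂ (x 0) * y 0 + starRingEnd ℂ (x 1) * y 1 - rho * (starRingEnd ℂ (x 2) * y 2)

theorem conj_mul_self (z : ℂ) : (starRingEnd ℂ) z * z = ((‖z‖ ^ 2 : ℝ) : ℂ) := by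
  rw [mul_comm, Complex.mul_conj, Complex.normSq_eq_norm_sq]

theorem hf_self (x : Fin 3 → ℂ) : hf x x = (qf x : ℂ) := by
  unfold hf qf
  rw [conj_mul_self, conj_mul_self, conj_mul_self]
  push_cast
  ring

theorem hf_smul_left (a : ℂ) (x y : Fin 3 → ℂ) : hf (a • x) y = starRingEnd ℂ a * hf x y := by
  unfold hf
  simp only [Pi.smul_apply, smul_eq_mul, map_mul]
  ring

theorem hf_smul_right (a : ℂ) (x y : Fin 3 → ℂ) : hf x (a • y) = a * hf x y := by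
  unfold hf
  simp only [Pi.smul_apply, smul_eq_mul]
  ring

theorem qf_smul (a : ℂ) (x : Fin 3 → ℂ) : qf (a • x) = ‖a‖ ^ 2 * qf x := by
  unfold qf
  simp only [Pi.smul_apply, smul_eq_mul, norm_mul, mul_pow]
  ring

theorem sM_mulVec (w : ℂ × ℂ) (v : Fin 3 → ℂ) :
    sM w *ᵥ v = -v + (2 * hf (lift3 w) v / qf (lift3 w)) • lift3 w := by
  funext i
  rw [Matrix.mulVec, dotProduct, Fin.sum_univ_three]
  simp only [sM, hf, Pi.add_apply, Pi.neg_apply, Pi.smul_apply, smul_eq_mul]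
  fin_cases i <;>
    simp [Matrix.cons_val_zero, Matrix.cons_val_one] <;> ring

theorem qf_lift3_neg {w : ℂ × ℂ} (hw : w ∈ Ball) : qf (lift3 w) < 0 := by
  have h : ‖w.1‖ ^ 2 + ‖w.2‖ ^ 2 < rho := hw
  have e : qf (lift3 w) = ‖w.1‖ ^ 2 + ‖w.2‖ ^ 2 - rho := by
    simp [qf, lift3]
  rw [e]
  linarith

theorem mem_Ball_iff {w : ℂ × ℂ} : w ∈ Ball ↔ qf (lift3 w) < 0 := by
  constructor
  · exact qf_lift3_neg
  · intro h
    have e : qf (lift3 w) = ‖w.1‖ ^ 2 + ‖w.2‖ ^ 2 - rho := by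
      simp [qf, lift3]
    rw [e] at h
    change ‖w.1‖ ^ 2 + ‖w.2‖ ^ 2 < rho
    linarith

theorem lift3_ne {w : ℂ × ℂ} : lift3 w ≠ 0 := by
  intro h
  have := congrFun h 2
  simp [lift3] at this

theorem lift3_inj {w w' : ℂ × ℂ} {a : ℂ} (h : a • lift3 w = lift3 w') : w = w' := by
  have h2 := congrFun h 2
  have h0 := congrFun h 0
  have h1 := congrFun h 1
  simp only [lift3, Pi.smul_apply, smul_eq_mul, Matrix.cons_val, Matrix.cons_val_zero,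
    Matrix.cons_val_one, mul_one] at h0 h1 h2
  rw [h2, one_mul] at h0 h1
  exact Prod.ext h0 h1

/-- A vector with negative norm has third coordinate `≠ 0`. -/
theorem ne_of_qf_neg {v : Fin 3 → ℂ} (h : qf v < 0) : v 2 ≠ 0 := by
  intro h2
  unfold qf at h
  rw [h2] at h
  simp only [norm_zero] at h
  nlinarith [sq_nonneg ‖v 0‖, sq_nonneg ‖v 1‖]

theorem hf_pos {x y : Fin 3 → ℂ} (hx : qf x < 0) (hxy : hf x y = 0) (hy : y ≠ 0) : 0 < qf y := by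
  unfold qf at hx ⊢
  unfold hf at hxy
  have hρ := rho_pos
  have h1 : ‖(rho : ℂ) * (starRingEnd ℂ (x 2) * y 2)‖ ≤ ‖x 0‖ * ‖y 0‖ + ‖x 1‖ * ‖y 1‖ := by
    rw [← sub_eq_zero.mp hxy]
    refine (norm_add_le _ _).trans ?_
    rw [norm_mul, norm_mul, RCLike.norm_conj, RCLike.norm_conj]
  rw [norm_mul, norm_mul, RCLike.norm_conj, Complex.norm_real, Real.norm_eq_abs,
    abs_of_pos hρ] at h1
  have a0 := norm_nonneg (x 0)
  have a1 := norm_nonneg (x 1)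
  have a2 := norm_nonneg (x 2)
  have b0 := norm_nonneg (y 0)
  have b1 := norm_nonneg (y 1)
  have b2 := norm_nonneg (y 2)
  set X0 := ‖x 0‖
  set X1 := ‖x 1‖
  set X2 := ‖x 2‖
  have h2 : (rho * (X2 * ‖y 2‖)) ^ 2 ≤ (X0 ^ 2 + X1 ^ 2) * (‖y 0‖ ^ 2 + ‖y 1‖ ^ 2) := by
    have h3 : (rho * (X2 * ‖y 2‖)) ^ 2 ≤ (X0 * ‖y 0‖ + X1 * ‖y 1‖) ^ 2 :=
      pow_le_pow_left₀ (by positivity) h1 2
    nlinarith [sq_nonneg (X0 * ‖y 1‖ - X1 * ‖y 0‖)]
  by_contra hcon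
  push Not at hcon
  by_cases hy2 : y 2 = 0
  · rw [hy2, norm_zero] at hcon
    have h0 : ‖y 0‖ ^ 2 + ‖y 1‖ ^ 2 ≤ 0 := by nlinarith
    have h3 : ‖y 0‖ = 0 := by nlinarith
    have h4 : ‖y 1‖ = 0 := by nlinarith
    apply hy
    funext i
    fin_cases i
    · simpa using h3
    · simpa using h4
    · simpa using hy2
  · have hpos : 0 < ‖y 2‖ ^ 2 := by
      have : 0 < ‖y 2‖ := norm_pos_iff.mpr hy2
      positivity
    have h5 : (X0 ^ 2 + X1 ^ 2) * (‖y 0‖ ^ 2 + ‖y 1‖ ^ 2) ≤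
        (X0 ^ 2 + X1 ^ 2) * (rho * ‖y 2‖ ^ 2) :=
      mul_le_mul_of_nonneg_left (by linarith) (by positivity)
    have h6 : (X0 ^ 2 + X1 ^ 2) * (rho * ‖y 2‖ ^ 2) < rho * X2 ^ 2 * (rho * ‖y 2‖ ^ 2) :=
      mul_lt_mul_of_pos_right (by linarith) (by positivity)
    nlinarith

/-- The image of the lift. -/
theorem mulVec_lift3 {g : Matrix (Fin 3) (Fin 3) ℂ} {w : ℂ × ℂ} (h : (g *ᵥ lift3 w) 2 ≠ 0) :
    g *ᵥ lift3 w = (g *ᵥ lift3 w) 2 • lift3 (act g w) := by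
  funext i
  fin_cases i
  · simp only [act, lift3, Fin.zero_eta, Pi.smul_apply, smul_eq_mul, Matrix.cons_val_zero]
    simp only [lift3] at h
    field_simp
  · simp only [act, lift3, Fin.mk_one, Pi.smul_apply, smul_eq_mul, Matrix.cons_val_one,
      Matrix.cons_val_zero]
    simp only [lift3] at h
    field_simp
  · simp [lift3]

theorem act_eq_of_mulVec {g : Matrix (Fin 3) (Fin 3) ℂ} {w w' : ℂ × ℂ} {a : ℂ} (ha : a ≠ 0)
    (h : g *ᵥ lift3 w = a • lift3 w') : act g w = w' := by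
  unfold act
  rw [h]
  simp only [lift3, Pi.smul_apply, smul_eq_mul, Matrix.cons_val_zero, Matrix.cons_val_one,
    Matrix.cons_val, mul_one]
  rw [mul_div_cancel_left₀ _ ha, mul_div_cancel_left₀ _ ha]

theorem act_mul {g k : Matrix (Fin 3) (Fin 3) ℂ} {w : ℂ × ℂ} (hk : (k *ᵥ lift3 w) 2 ≠ 0)
    (hg : (g *ᵥ lift3 (act k w)) 2 ≠ 0) : act (g * k) w = act g (act k w) := by
  apply act_eq_of_mulVec (mul_ne_zero hk hg)
  rw [← Matrix.mulVec_mulVec, mulVec_lift3 hk, Matrix.mulVec_smul, mulVec_lift3 hg, smul_smul]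
  simp only [Pi.smul_apply, smul_eq_mul]
  have e : lift3 (act g (act k w)) 2 = 1 := rfl
  have e2 : lift3 (act k w) 2 = 1 := rfl
  rw [e, e2, mul_one, mul_one]

section Group

variable {Γ : Subgroup (GL (Fin 3) ℂ)}

theorem act_ne {g : Matrix (Fin 3) (Fin 3) ℂ} (hg : ∀ v, qf (g *ᵥ v) = qf v) {w : ℂ × ℂ}
    (hw : w ∈ Ball) : (g *ᵥ lift3 w) 2 ≠ 0 :=
  ne_of_qf_neg (by rw [hg]; exact qf_lift3_neg hw)

theorem act_mem {g : Matrix (Fin 3) (Fin 3) ℂ} (hg : ∀ v, qf (g *ᵥ v) = qf v) {w : ℂ × ℂ}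
    (hw : w ∈ Ball) : act g w ∈ Ball := by
  rw [mem_Ball_iff]
  have h1 := act_ne hg hw
  have h2 : qf (g *ᵥ lift3 w) = ‖(g *ᵥ lift3 w) 2‖ ^ 2 * qf (lift3 (act g w)) := by
    conv_lhs => rw [mulVec_lift3 h1]
    rw [qf_smul]
  rw [hg] at h2
  have h3 := qf_lift3_neg hw
  have h4 : 0 < ‖(g *ᵥ lift3 w) 2‖ ^ 2 := by
    have := norm_pos_iff.mpr h1
    positivity
  by_contra h
  push Not at h
  nlinarith

theorem act_mul' {g k : Matrix (Fin 3) (Fin 3) ℂ} (hg : ∀ v, qf (g *ᵥ v) = qf v)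
    (hk : ∀ v, qf (k *ᵥ v) = qf v) {w : ℂ × ℂ} (hw : w ∈ Ball) :
    act (g * k) w = act g (act k w) :=
  act_mul (act_ne hk hw) (act_ne hg (act_mem hk hw))

theorem act_one (w : ℂ × ℂ) : act 1 w = w := by
  simp [act, lift3]

end Group

end Pool.Agent.MP_f1864b_gt.Num
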