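import Pool.Agent.Lib.MP_f1864b_gt.G.Defs

set_option autoImplicit false

/-!
# MP_f1864b_gt: the facts on `ℤ[ζ₅]` which are used for the fixed frame, and the unit lemma
-/

set_option linter.unusedSectionVars false

namespace Pool.Agent.MP_f1864b_gt.Num

open Complex

/-- The facts on the ring `ℤ[ζ₅]` which are used for the fixed frame. -/
structure NumData (O : Type*) [CommRing O] where
  cj : O →+* O
  cj_cj : ∀ x, cj (cj x) = x
  s1 : O →+* ℂ
  s2 : O →+* ℂ
  s1_inj : Function.Injective s1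
  s2_inj : Function.Injective s2
  s1_cj : ∀ x, s1 (cj x) = starRingEnd ℂ (s1 x)
  s2_cj : ∀ x, s2 (cj x) = starRingEnd ℂ (s2 x)
  al : O
  al_sq : al ^ 2 = al + 1
  cj_al : cj al = al
  s1_al : s1 al = ((-rho : ℝ) : ℂ)
  s2_al : s2 al = ((1 + rho : ℝ) : ℂ)
  real : ∀ x, cj x = x → ∃ a b : ℤ, x = a + b * al
  pi : O
  red : O →+* ZMod 5
  red_eq_zero : ∀ x, red x = 0 ↔ pi ∣ x
  red_cj : ∀ x, red (cj x) = red x
  red_al : red al = 3
  unit_adj : ∀ a, pi ^ 2 ∣ a * cj a - 1 → ∃ e, e * cj e = 1 ∧ pi ^ 2 ∣ e * a - 1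

theorem rho_sq : rho ^ 2 = 1 - rho := by
  unfold rho
  have h : Real.sqrt 5 ^ 2 = 5 := Real.sq_sqrt (by norm_num)
  nlinarith

theorem rho_pos : 0 < rho := by
  unfold rho
  have h : (1 : ℝ) < Real.sqrt 5 := by
    rw [Real.lt_sqrt (by norm_num)]; norm_num
  linarith

theorem rho_lt : rho < 0.62 := by
  unfold rho
  have h : Real.sqrt 5 < 2.24 := by
    rw [Real.sqrt_lt' (by norm_num)]; norm_num
  linarith

theorem lt_rho : 0.61 < rho := by
  unfold rho
  have h : (2.22 : ℝ) < Real.sqrt 5 := by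
    rw [Real.lt_sqrt (by norm_num)]; norm_num
  linarith

namespace NumData

variable {O : Type*} [CommRing O] [IsDomain O] (D : NumData O)

theorem al_mul : D.al * (D.al - 1) = 1 := by
  have := D.al_sq
  linear_combination this

/-- The unit `(1 - √5)/2`. -/
def alU : Oˣ := ⟨D.al, D.al - 1, D.al_mul, by rw [mul_comm]; exact D.al_mul⟩

theorem s1_real (a b : ℤ) : D.s1 ((a : O) + b * D.al) = ((a - b * rho : ℝ) : ℂ) := by
  rw [map_add, map_mul, map_intCast, map_intCast, D.s1_al]
  push_cast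
  ring

theorem s2_real (a b : ℤ) : D.s2 ((a : O) + b * D.al) = ((a + b * (1 + rho) : ℝ) : ℂ) := by
  rw [map_add, map_mul, map_intCast, map_intCast, D.s2_al]
  push_cast
  ring

theorem norm_real (a b : ℤ) : ((a : ℝ) - b * rho) * (a + b * (1 + rho)) =
    ((a ^ 2 + a * b - b ^ 2 : ℤ) : ℝ) := by
  push_cast
  linear_combination (-(b : ℝ) ^ 2) * rho_sq

theorem red_real (a b : ℤ) : D.red ((a : O) + b * D.al) = a + b * 3 := by
  rw [map_add, map_mul, map_intCast, map_intCast, D.red_al]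

/-- A real unit has norm `± 1`; more generally the norm of a divisor divides. -/
theorem norm_mul {r s : O} {a b c d : ℤ} (hr : r = a + b * D.al) (hs : s = c + d * D.al) {m : ℤ}
    (h : r * s = m) : (a ^ 2 + a * b - b ^ 2) * (c ^ 2 + c * d - d ^ 2) = m ^ 2 := by
  have h1 := congrArg D.s1 h
  have h2 := congrArg D.s2 h
  rw [map_mul, hr, hs, s1_real, s1_real, map_intCast] at h1
  rw [map_mul, hr, hs, s2_real, s2_real, map_intCast] at h2
  have h1' : ((a : ℝ) - b * rho) * (c - d * rho) = m := by exact_mod_cast h1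
  have h2' : ((a : ℝ) + b * (1 + rho)) * (c + d * (1 + rho)) = m := by exact_mod_cast h2
  have h3 : (((a ^ 2 + a * b - b ^ 2 : ℤ) : ℝ)) * ((c ^ 2 + c * d - d ^ 2 : ℤ) : ℝ) =
      (m : ℝ) ^ 2 := by
    rw [← norm_real, ← norm_real]
    calc _ = (((a : ℝ) - b * rho) * (c - d * rho)) *
          (((a : ℝ) + b * (1 + rho)) * (c + d * (1 + rho))) := by ring
      _ = _ := by rw [h1', h2']; ring
  exact_mod_cast h3

theorem cj_alU_zpow (k : ℤ) : D.cj ((D.alU ^ k : Oˣ) : O) = ((D.alU ^ k : Oˣ) : O) := by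
  have h : Units.map (D.cj : O →* O) D.alU = D.alU := by
    ext
    exact D.cj_al
  have h2 := congrArg (fun u : Oˣ => (u : O)) (map_zpow (Units.map (D.cj : O →* O)) D.alU k)
  rw [h] at h2
  exact h2

theorem s2_alU_zpow (k : ℤ) :
    D.s2 ((D.alU ^ k : Oˣ) : O) = (((1 + rho : ℝ) ^ k : ℝ) : ℂ) := by
  have h := congrArg (fun u : ℂˣ => (u : ℂ)) (map_zpow (Units.map (D.s2 : O →* ℂ)) D.alU k)
  simp only [Units.coe_map, MonoidHom.coe_coe, Units.val_zpow_eq_zpow_val] at h
  rw [h]
  have : D.s2 (D.alU : O) = ((1 + rho : ℝ) : ℂ) := D.s2_al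
  rw [this]
  push_cast
  rfl

theorem s1_alU_zpow (k : ℤ) :
    D.s1 ((D.alU ^ k : Oˣ) : O) = (((-rho : ℝ) ^ k : ℝ) : ℂ) := by
  have h := congrArg (fun u : ℂˣ => (u : ℂ)) (map_zpow (Units.map (D.s1 : O →* ℂ)) D.alU k)
  simp only [Units.coe_map, MonoidHom.coe_coe, Units.val_zpow_eq_zpow_val] at h
  rw [h]
  have : D.s1 (D.alU : O) = ((-rho : ℝ) : ℂ) := D.s1_al
  rw [this]
  push_cast
  rfl

/-- The real units which are positive at the second place are the powers of `al`. -/
theorem unit_classify {r : O} (hr : D.cj r = r) (hu : IsUnit r) (h2 : 0 < (D.s2 r).re) :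
    ∃ k : ℤ, r = ((D.alU ^ k : Oˣ) : O) := by
  have hφ : (1 : ℝ) < 1 + rho := by have := rho_pos; linarith
  obtain ⟨n, hn1, hn2⟩ := exists_mem_Ico_zpow h2 hφ
  refine ⟨n, ?_⟩
  set t : O := r * ((D.alU ^ (-n) : Oˣ) : O) with ht
  have htr : D.cj t = t := by rw [ht, map_mul, hr, cj_alU_zpow]
  have htu : IsUnit t := hu.mul (Units.isUnit _)
  obtain ⟨a, b, hab⟩ := D.real t htr
  obtain ⟨s, hs⟩ := htu.exists_right_inv
  have hsr : D.cj s = s := by
    have h := congrArg D.cj hs
    rw [map_mul, htr, map_one, ← hs] at h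
    exact mul_left_cancel₀ htu.ne_zero h
  obtain ⟨c, d, hcd⟩ := D.real s hsr
  have hN := D.norm_mul hab hcd (m := 1) (by rw [hs]; norm_num)
  have hN1 : a ^ 2 + a * b - b ^ 2 = 1 ∨ a ^ 2 + a * b - b ^ 2 = -1 := by
    rw [one_pow] at hN
    rcases Int.eq_one_or_neg_one_of_mul_eq_one hN with h | h
    · exact Or.inl h
    · exact Or.inr h
  have hx : (D.s2 r).re = (((D.s2 t).re) * (1 + rho) ^ n) := by
    have h3 : r = t * ((D.alU ^ n : Oˣ) : O) := by
      rw [ht, mul_assoc, ← Units.val_mul, ← zpow_add]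
      simp
    conv_lhs => rw [h3]
    rw [map_mul, s2_alU_zpow, Complex.re_mul_ofReal]
  have hpow : (0 : ℝ) < (1 + rho) ^ n := zpow_pos (by linarith) n
  have ht1 : (1 : ℝ) ≤ a + b * (1 + rho) := by
    have h3 : (D.s2 t).re = a + b * (1 + rho) := by
      rw [hab, s2_real, Complex.ofReal_re]
    rw [hx, h3] at hn1
    nlinarith
  have ht2 : (a : ℝ) + b * (1 + rho) < 1 + rho := by
    have h3 : (D.s2 t).re = a + b * (1 + rho) := by
      rw [hab, s2_real, Complex.ofReal_re]
    rw [hx, h3, zpow_add_one₀ (by linarith), mul_comm ((1 + rho) ^ n)] at hn2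
    exact lt_of_mul_lt_mul_right hn2 hpow.le
  have hprod := norm_real a b
  have habs : |(a : ℝ) - b * rho| ≤ 1 := by
    have h4 : |((a : ℝ) - b * rho) * (a + b * (1 + rho))| = 1 := by
      rw [hprod]
      rcases hN1 with h | h <;> rw [h] <;> norm_num
    rw [abs_mul] at h4
    have h5 : (1 : ℝ) ≤ |(a : ℝ) + b * (1 + rho)| := ht1.trans (le_abs_self _)
    nlinarith [abs_nonneg ((a : ℝ) - b * rho)]
  rw [abs_le] at habs
  have hlr := lt_rho
  have hrl := rho_lt
  have hb0 : 0 ≤ b := by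
    by_contra h
    have h6 : (b : ℝ) ≤ -1 := by exact_mod_cast (by omega : b ≤ -1)
    nlinarith
  have hb1 : b ≤ 1 := by
    by_contra h
    have h6 : (2 : ℝ) ≤ b := by exact_mod_cast (by omega : 2 ≤ b)
    nlinarith
  have ht0 : t = 1 := by
    rcases (by omega : b = 0 ∨ b = 1) with hb | hb
    · subst hb
      simp only [Int.cast_zero, zero_mul, add_zero] at ht1 ht2 hab
      have ha1 : 1 ≤ a := by exact_mod_cast ht1
      have ha2 : a < 2 := by
        have : (a : ℝ) < 2 := by linarith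
        exact_mod_cast this
      have : a = 1 := by omega
      rw [hab, this, Int.cast_one]
    · exfalso
      subst hb
      simp only [Int.cast_one, one_mul] at ht1 ht2
      have ha1 : a < 0 := by
        have : (a : ℝ) < 0 := by linarith
        exact_mod_cast this
      have ha2 : -1 < a := by
        have : (-1 : ℝ) < a := by linarith
        exact_mod_cast this
      omega
  have h3 : r = t * ((D.alU ^ n : Oˣ) : O) := by
    rw [ht, mul_assoc, ← Units.val_mul, ← zpow_add]
    simp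
  rw [h3, ht0, one_mul]

theorem isUnit_of_norm {r : O} {a b : ℤ} (hab : r = a + b * D.al)
    (hN : a ^ 2 + a * b - b ^ 2 = 1 ∨ a ^ 2 + a * b - b ^ 2 = -1) : IsUnit r := by
  have h : r * ((a : O) + b - b * D.al) = ((a ^ 2 + a * b - b ^ 2 : ℤ) : O) := by
    rw [hab]
    push_cast
    linear_combination (-(b : O) ^ 2) * D.al_sq
  rcases hN with h1 | h1
  · rw [h1, Int.cast_one] at h
    exact IsUnit.of_mul_eq_one _ h
  · rw [h1, Int.cast_neg, Int.cast_one] at h
    exact IsUnit.of_mul_eq_one (-((a : O) + b - b * D.al)) (by rw [mul_neg, h, neg_neg])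

/-- A real divisor of `2`, positive at the second place, is a power of `al` or twice a power. -/
theorem divisor_classify {r : O} (hr : D.cj r = r) (hd : r ∣ 2) (h2 : 0 < (D.s2 r).re) :
    ∃ k : ℤ, r = ((D.alU ^ k : Oˣ) : O) ∨ r = 2 * ((D.alU ^ k : Oˣ) : O) := by
  obtain ⟨s, hs⟩ := hd
  have h20 : (2 : O) ≠ 0 := by
    intro h
    have h' := congrArg D.s1 h
    rw [map_ofNat, map_zero] at h'
    norm_num at h'
  have hr0 : r ≠ 0 := by
    rintro rfl
    rw [zero_mul] at hs
    exact h20 hs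
  obtain ⟨a, b, hab⟩ := D.real r hr
  have hsr : D.cj s = s := by
    have h := congrArg D.cj hs
    rw [map_mul, hr, map_ofNat] at h
    exact (mul_left_cancel₀ hr0 (hs.symm.trans h)).symm
  obtain ⟨c, d, hcd⟩ := D.real s hsr
  have hN := D.norm_mul hab hcd (m := 2) (by rw [← hs]; norm_num)
  set n := a ^ 2 + a * b - b ^ 2 with hn
  have hdvd : n ∣ 4 := ⟨_, by rw [hN]; norm_num⟩
  by_cases hpar : Even a ∧ Even b
  · obtain ⟨⟨a', ha'⟩, ⟨b', hb'⟩⟩ := hpar
    have hn4 : n = 4 * (a' ^ 2 + a' * b' - b' ^ 2) := by rw [hn, ha', hb']; ring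
    have h1 : a' ^ 2 + a' * b' - b' ^ 2 ∣ 1 := by
      rw [hn4] at hdvd
      obtain ⟨q, hq⟩ := hdvd
      exact ⟨q, by linarith⟩
    have hN' : a' ^ 2 + a' * b' - b' ^ 2 = 1 ∨ a' ^ 2 + a' * b' - b' ^ 2 = -1 :=
      Int.isUnit_iff.mp (isUnit_of_dvd_one h1)
    set r' : O := a' + b' * D.al with hr'
    have hrr : r = 2 * r' := by
      rw [hab, hr', ha', hb']
      push_cast
      ring
    have hu := D.isUnit_of_norm (r := r') rfl hN'
    have hcr : D.cj r' = r' := by
      rw [hr', map_add, map_mul, map_intCast, map_intCast, D.cj_al]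
    have hs2 : 0 < (D.s2 r').re := by
      rw [hrr, map_mul, map_ofNat] at h2
      simpa using h2
    obtain ⟨k, hk⟩ := D.unit_classify hcr hu hs2
    exact ⟨k, Or.inr (by rw [hrr, hk])⟩
  · have hodd : ¬ (2 : ℤ) ∣ n := by
      intro h
      apply hpar
      rw [hn] at h
      rcases Int.even_or_odd a with ha | ha <;> rcases Int.even_or_odd b with hb | hb
      · exact ⟨ha, hb⟩
      · exfalso
        obtain ⟨x, hx⟩ := ha
        obtain ⟨y, hy⟩ := hb
        obtain ⟨q, hq⟩ := h
        rw [hx, hy] at hq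
        ring_nf at hq
        omega
      · exfalso
        obtain ⟨x, hx⟩ := ha
        obtain ⟨y, hy⟩ := hb
        obtain ⟨q, hq⟩ := h
        rw [hx, hy] at hq
        ring_nf at hq
        omega
      · exfalso
        obtain ⟨x, hx⟩ := ha
        obtain ⟨y, hy⟩ := hb
        obtain ⟨q, hq⟩ := h
        rw [hx, hy] at hq
        ring_nf at hq
        omega
    have hN' : n = 1 ∨ n = -1 := by
      have h1 : n.natAbs ∣ 4 := by
        have := Int.natAbs_dvd_natAbs.mpr hdvd
        simpa using this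
      have h2' : n.natAbs ≤ 4 := Nat.le_of_dvd (by norm_num) h1
      have h3 : ¬ 2 ∣ n.natAbs := by
        intro h
        apply hodd
        exact Int.natCast_dvd.mpr h
      interval_cases hm : n.natAbs <;> simp_all <;> omega
    have hu := D.isUnit_of_norm hab hN'
    obtain ⟨k, hk⟩ := D.unit_classify hr hu h2
    exact ⟨k, Or.inl hk⟩

theorem red_unit_ne (u : Oˣ) : D.red (u : O) ≠ 0 := by
  intro h
  have h1 := congrArg D.red u.mul_inv
  rw [map_mul, h, zero_mul, map_one] at h1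
  exact absurd h1 (by decide)

theorem s1_even (m : ℤ) : 0 < (D.s1 ((D.alU ^ (m + m) : Oˣ) : O)).re := by
  rw [s1_alU_zpow, Complex.ofReal_re]
  have h : (-rho) ≠ 0 := by have := rho_pos; linarith
  rw [zpow_add₀ h]
  exact mul_self_pos.mpr (zpow_ne_zero _ h)

theorem s1_odd (m : ℤ) : (D.s1 ((D.alU ^ (m + m + 1) : Oˣ) : O)).re < 0 := by
  rw [s1_alU_zpow, Complex.ofReal_re]
  have hρ := rho_pos
  have h : (-rho) ≠ 0 := by linarith
  rw [zpow_add₀ h, zpow_add₀ h, zpow_one]
  have h2 : 0 < (-rho) ^ m * (-rho) ^ m := mul_self_pos.mpr (zpow_ne_zero _ h)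
  nlinarith

/-- The norm of a primitive vector which is positive at both places and a square modulo `π`. -/
theorem norm_pos {r : O} (hr : D.cj r = r) (hd : r ∣ 2) (h1 : 0 < (D.s1 r).re)
    (h2 : 0 < (D.s2 r).re) {a : ZMod 5} (ha : a ≠ 0) (hra : D.red r = a ^ 2) :
    ∃ t : Oˣ, D.cj t = t ∧ r = (t : O) ^ 2 := by
  obtain ⟨k, hk⟩ := D.divisor_classify hr hd h2
  rcases Int.even_or_odd k with ⟨m, hm⟩ | ⟨m, hm⟩
  · rcases hk with hk | hk
    · refine ⟨D.alU ^ m, D.cj_alU_zpow m, ?_⟩
      rw [hk, hm, zpow_add, Units.val_mul, sq]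
    · exfalso
      have h3 := D.red_unit_ne (D.alU ^ m)
      rw [hk, hm, zpow_add, Units.val_mul, map_mul, map_mul, map_ofNat] at hra
      revert h3 hra ha
      generalize D.red ((D.alU ^ m : Oˣ) : O) = u
      revert u a
      decide
  · exfalso
    have hm' : k = m + m + 1 := by omega
    have h3 := D.s1_odd m
    rcases hk with hk | hk
    · rw [hk, hm'] at h1
      linarith
    · rw [hk, hm', map_mul, map_ofNat] at h1
      simp only [Complex.mul_re, Complex.re_ofNat, Complex.im_ofNat, zero_mul, sub_zero] at h1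
      linarith

/-- The norm of a primitive vector which is negative at the first place, positive at the second
place and three times a square modulo `π`. -/
theorem norm_neg {r : O} (hr : D.cj r = r) (hd : r ∣ 2) (h1 : (D.s1 r).re < 0)
    (h2 : 0 < (D.s2 r).re) {a : ZMod 5} (ha : a ≠ 0) (hra : D.red r = 3 * a ^ 2) :
    ∃ t : Oˣ, D.cj t = t ∧ r = D.al * (t : O) ^ 2 := by
  obtain ⟨k, hk⟩ := D.divisor_classify hr hd h2
  rcases Int.even_or_odd k with ⟨m, hm⟩ | ⟨m, hm⟩
  · exfalso
    have h3 := D.s1_even m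
    rcases hk with hk | hk
    · rw [hk, hm] at h1
      linarith
    · rw [hk, hm, map_mul, map_ofNat] at h1
      simp only [Complex.mul_re, Complex.re_ofNat, Complex.im_ofNat, zero_mul, sub_zero] at h1
      linarith
  · have hm' : k = m + m + 1 := by omega
    have hal : (D.alU : O) = D.al := rfl
    rcases hk with hk | hk
    · refine ⟨D.alU ^ m, D.cj_alU_zpow m, ?_⟩
      rw [hk, hm', zpow_add, zpow_add, zpow_one, Units.val_mul, Units.val_mul, hal, sq]
      ring
    · exfalso
      have h3 := D.red_unit_ne (D.alU ^ m)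
      rw [hk, hm', zpow_add, zpow_add, zpow_one, Units.val_mul, Units.val_mul, hal, map_mul,
        map_mul, map_mul, map_ofNat, D.red_al] at hra
      revert h3 hra ha
      generalize D.red ((D.alU ^ m : Oˣ) : O) = u
      revert u a
      decide

end NumData

end Pool.Agent.MP_f1864b_gt.Num
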