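import Pool.Agent.Lib.MP_f1864b_gt.Num.Res
import Pool.Agent.Lib.MP_f1864b_gt.Num.Unit

set_option autoImplicit false

/-!
The facts on `ℤ[ζ]` which are used for the fixed frame.
-/

namespace Pool.Agent.Dold.Num

open Complex

theorem al_sq : al ^ 2 = al + 1 := by
  rw [al_eq]
  have := thO_sq
  linear_combination this

theorem cj_al : cj al = al := by
  unfold al
  rw [map_neg, map_add, map_pow, cj_zO]
  have := zO_pow
  linear_combination (-(zO ^ 11 + zO ^ 6 + zO)) * this

theorem s1_al : s1 al = ((-Pool.Agent.MP_f1864b_gt.rho : ℝ) : ℂ) := by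
  rw [al_eq, map_neg, s1_thO]
  push_cast
  rfl

theorem s2_al : s2 al = ((1 + Pool.Agent.MP_f1864b_gt.rho : ℝ) : ℂ) := by
  rw [al_eq, map_neg, s2_thO]
  have : th = Pool.Agent.MP_f1864b_gt.rho := rfl
  rw [this]
  push_cast
  ring

/-- The facts on `ℤ[ζ]` which are used for the fixed frame. -/
noncomputable def numData : Pool.Agent.MP_f1864b_gt.Num.NumData OO where
  cj := cj
  cj_cj := cj_cj
  s1 := s1
  s2 := s2
  s1_inj := s1_injective
  s2_inj := s2_injective
  s1_cj := s1_cj
  s2_cj := s2_cj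
  al := al
  al_sq := al_sq
  cj_al := cj_al
  s1_al := s1_al
  s2_al := s2_al
  real := by
    intro x hx
    obtain ⟨a, b, hab⟩ := exists_real x hx
    refine ⟨a, -b, ?_⟩
    rw [hab, al_eq]
    push_cast
    ring
  pi := piO
  red := red
  red_eq_zero := red_eq_zero
  red_cj := red_cj
  red_al := red_al
  unit_adj := unit_adj

end Pool.Agent.Dold.Num
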