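import Pool.Agent.Lib.MP_f1864b_gt.Num.Tors
import Pool.Agent.Lib.MP_f1864b_gt.Num.Inst
import Pool.Agent.Lib.MP_f1864b_gt.Num.Geo

set_option autoImplicit false

/-!
Fields of `LatticeData` for the congruence subgroup: closed under complex conjugation and under
conjugation by `z`, `z` and `-z` are not in it, the action is free.
-/

namespace Pool.Agent.Dold.Num

open Complex Matrix

theorem map_s1_injective : Function.Injective
    (Matrix.GeneralLinearGroup.map (n := Fin 3) s1) := by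
  intro a b hab
  apply Units.ext
  ext1 i j
  have h := congrFun (congrFun (congrArg (fun u : GL (Fin 3) ℂ => (u : Matrix _ _ ℂ)) hab) i) j
  exact s1_injective h

theorem mem_Gam {g : GL (Fin 3) ℂ} :
    g ∈ Gam ↔ ∃ g0 ∈ Gam0, Matrix.GeneralLinearGroup.map s1 g0 = g := Iff.rfl

theorem piO_dvd_cj : piO ∣ cj piO := by
  refine ⟨1 + zO + zO ^ 2 + zO ^ 3, ?_⟩
  unfold piO
  rw [map_sub, map_one, cj_zO]
  ring

theorem cj_hO : hO.map cj = hO := by
  unfold hO
  ext1 i j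
  fin_cases i <;> fin_cases j <;> simp [Matrix.diagonal, cj_al]

/-- Complex conjugation of the entries. -/
noncomputable def cjG : GL (Fin 3) OO →* GL (Fin 3) OO := Matrix.GeneralLinearGroup.map cj

theorem cjG_mem {g : GL (Fin 3) OO} (hg : g ∈ Gam0) : cjG g ∈ Gam0 := by
  obtain ⟨hg1, hg2⟩ := hg
  have hg1' : ((g : Matrix (Fin 3) (Fin 3) OO).map cj)ᵀ * hO * g = hO := hg1
  refine ⟨?_, fun i j => ?_⟩
  · change (((g : Matrix (Fin 3) (Fin 3) OO).map cj).map cj)ᵀ * hO *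
      ((g : Matrix (Fin 3) (Fin 3) OO).map cj) = hO
    have h := congrArg (fun M : Matrix (Fin 3) (Fin 3) OO => M.map cj) hg1'
    simp only [Matrix.map_mul, cj_hO] at h
    rw [← Matrix.transpose_map] at h
    exact h
  · obtain ⟨y, hy⟩ := hg2 i j
    have e : ((cjG g : GL (Fin 3) OO) : Matrix (Fin 3) (Fin 3) OO) - 1 =
        ((g : Matrix (Fin 3) (Fin 3) OO) - 1).map cj := by
      ext1 a b
      change cj (g.1 a b) - (1 : Matrix (Fin 3) (Fin 3) OO) a b =
        cj (g.1 a b - (1 : Matrix (Fin 3) (Fin 3) OO) a b)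
      rw [map_sub]
      congr 1
      by_cases hab : a = b
      · subst hab; simp
      · simp [hab]
    rw [e, Matrix.map_apply, hy, map_mul, map_pow]
    exact Dvd.dvd.mul_right (pow_dvd_pow_of_dvd piO_dvd_cj 2) _

theorem conj_mem : ∀ g ∈ Gam, Pool.Agent.MP_f1864b_gt.conjG g ∈ Gam := by
  rintro g ⟨g0, hg0, rfl⟩
  refine ⟨cjG g0, cjG_mem hg0, ?_⟩
  apply Units.ext
  ext1 i j
  rfl

/-- The matrix `diag(-1, -1, 1)` over `O`. -/
noncomputable def zGO : GL (Fin 3) OO where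
  val := Matrix.diagonal ![-1, -1, 1]
  inv := Matrix.diagonal ![-1, -1, 1]
  val_inv := by
    rw [Matrix.diagonal_mul_diagonal, ← Matrix.diagonal_one]
    congr 1
    ext1 i
    fin_cases i <;> simp
  inv_val := by
    rw [Matrix.diagonal_mul_diagonal, ← Matrix.diagonal_one]
    congr 1
    ext1 i
    fin_cases i <;> simp

theorem map_zGO : Matrix.GeneralLinearGroup.map s1 zGO = Pool.Agent.MP_f1864b_gt.zG := by
  apply Units.ext
  ext1 i j
  change s1 ((Matrix.diagonal ![-1, -1, 1] : Matrix (Fin 3) (Fin 3) OO) i j) =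
    (Matrix.diagonal ![-1, -1, 1] : Matrix (Fin 3) (Fin 3) ℂ) i j
  fin_cases i <;> fin_cases j <;> simp [Matrix.diagonal]

theorem zGO_mem : zGO ∈ Lam := by
  change ((Matrix.diagonal ![-1, -1, 1] : Matrix (Fin 3) (Fin 3) OO).map cj)ᵀ * hO *
    Matrix.diagonal ![-1, -1, 1] = hO
  unfold hO
  rw [Matrix.diagonal_map (map_zero cj), Matrix.diagonal_transpose, Matrix.diagonal_mul_diagonal,
    Matrix.diagonal_mul_diagonal]
  congr 1
  ext1 i
  fin_cases i <;> simp

theorem zGO_mul_self : zGO * zGO = 1 := by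
  have : zGO⁻¹ = zGO := by
    apply Units.ext
    rfl
  calc zGO * zGO = zGO * zGO⁻¹ := by rw [this]
    _ = 1 := mul_inv_cancel _

theorem z_conj_mem : ∀ g ∈ Gam, Pool.Agent.MP_f1864b_gt.zG * g * Pool.Agent.MP_f1864b_gt.zG ∈
    Gam := by
  rintro g ⟨g0, hg0, rfl⟩
  refine ⟨zGO * g0 * zGO, ⟨Lam.mul_mem (Lam.mul_mem zGO_mem hg0.1) zGO_mem, fun i j => ?_⟩, ?_⟩
  · have e : ((zGO * g0 * zGO : GL (Fin 3) OO) : Matrix (Fin 3) (Fin 3) OO) - 1 =
        (zGO : Matrix (Fin 3) (Fin 3) OO) * ((g0 : Matrix (Fin 3) (Fin 3) OO) - 1) *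
          (zGO : Matrix (Fin 3) (Fin 3) OO) := by
      have h := congrArg (fun u : GL (Fin 3) OO => (u : Matrix (Fin 3) (Fin 3) OO)) zGO_mul_self
      simp only [Units.val_mul, Units.val_one] at h
      rw [mul_sub, sub_mul, mul_one, h, Units.val_mul, Units.val_mul]
    rw [e, Matrix.mul_apply]
    refine Finset.dvd_sum fun l _ => Dvd.dvd.mul_right ?_ _
    rw [Matrix.mul_apply]
    exact Finset.dvd_sum fun m _ => Dvd.dvd.mul_left (hg0.2 m l) _
  · rw [map_mul, map_mul, map_zGO]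

theorem not_dvd_neg_two : ¬ piO ^ 2 ∣ (-1 - 1 : OO) := by
  intro h
  have h1 : piO ∣ (-1 - 1 : OO) := (dvd_pow_self piO (by norm_num)).trans h
  have h2 := (red_eq_zero _).2 h1
  simp only [map_sub, map_neg, map_one] at h2
  exact absurd h2 (by decide)

theorem z_notMem : Pool.Agent.MP_f1864b_gt.zG ∉ Gam := by
  rintro ⟨g0, hg0, hg⟩
  rw [← map_zGO] at hg
  have h := map_s1_injective hg
  subst h
  have := hg0.2 0 0
  apply not_dvd_neg_two
  simpa [zGO] using this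

theorem neg_z_notMem : -Pool.Agent.MP_f1864b_gt.zG ∉ Gam := by
  rintro ⟨g0, hg0, hg⟩
  have h1 : Matrix.GeneralLinearGroup.map s1 (-zGO) = -Pool.Agent.MP_f1864b_gt.zG := by
    rw [← map_zGO]
    apply Units.ext
    ext1 i j
    change s1 (-(zGO.1 i j)) = -(s1 (zGO.1 i j))
    rw [map_neg]
  rw [← h1] at hg
  have h := map_s1_injective hg
  subst h
  have := hg0.2 2 2
  apply not_dvd_neg_two
  simpa [zGO] using this

open Pool.Agent.MP_f1864b_gt in
/-- The action is free if it is properly discontinuous. -/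
theorem free_of (hun : ∀ g ∈ Gam, ∀ v, qf (g.1 *ᵥ v) = qf v)
    (hd : ∀ K : Set (ℂ × ℂ), K ⊆ Ball → IsCompact K →
      {g : GL (Fin 3) ℂ | g ∈ Gam ∧ ∃ w ∈ K, act g.1 w ∈ K}.Finite) :
    ∀ g ∈ Gam, ∀ w ∈ Ball, act g.1 w = w → g = 1 := by
  intro g hg w hw hgw
  have hfin := hd {w} (Set.singleton_subset_iff.2 hw) isCompact_singleton
  have hpow : ∀ n : ℕ, act (g ^ n).1 w = w := by
    intro n
    induction n with
    | zero => exact Pool.Agent.MP_f1864b_gt.Num.act_one w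
    | succ n ih =>
      rw [pow_succ, Units.val_mul, Pool.Agent.MP_f1864b_gt.Num.act_mul'
        (hun _ (Gam.pow_mem hg n)) (hun _ hg) hw, hgw, ih]
  have hsub : (Submonoid.powers g : Set (GL (Fin 3) ℂ)) ⊆
      {g : GL (Fin 3) ℂ | g ∈ Gam ∧ ∃ w' ∈ ({w} : Set (ℂ × ℂ)), act g.1 w' ∈ ({w} : Set _)} := by
    rintro _ ⟨n, rfl⟩
    exact ⟨Gam.pow_mem hg n, w, rfl, hpow n⟩
  have hord : IsOfFinOrder g := finite_powers.1 (hfin.subset hsub)
  obtain ⟨g0, hg0, rfl⟩ := hg
  have hord0 : IsOfFinOrder g0 := by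
    rw [isOfFinOrder_iff_pow_eq_one] at hord ⊢
    obtain ⟨n, hn, h⟩ := hord
    exact ⟨n, hn, map_s1_injective (by rw [map_pow, h, map_one])⟩
  rw [gam0_torsion_free hg0 hord0, map_one]

end Pool.Agent.Dold.Num
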