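import Pool.Agent.Lib.MP_f1864b_gt.Num.Unit

set_option autoImplicit false
set_option linter.unusedSectionVars false

/-!
# MP_f1864b_gt: a commuting pair of involutions of the hermitian lattice which is congruent to the
standard pair is conjugate to it in the congruence subgroup
-/

namespace Pool.Agent.MP_f1864b_gt.Num.NumData

open Complex

variable {O : Type*} [CommRing O] [IsDomain O] (D : NumData O)

/-- The diagonal of the form. -/
def hd : Fin 3 → O := ![1, 1, D.al]

/-- The inverse of the diagonal of the form. -/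
def hdi : Fin 3 → O := ![1, 1, D.al - 1]

theorem hd_mul_hdi (i : Fin 3) : D.hd i * D.hdi i = 1 := by
  fin_cases i <;> simp [hd, hdi, D.al_mul]

theorem cj_hd (i : Fin 3) : D.cj (D.hd i) = D.hd i := by
  fin_cases i <;> simp [hd, D.cj_al]

/-- The hermitian form. -/
def Bf (x y : Fin 3 → O) : O := ∑ i, D.hd i * (D.cj (x i) * y i)

theorem Bf_smul_right (a : O) (x y : Fin 3 → O) : D.Bf x (a • y) = a * D.Bf x y := by
  simp only [Bf, Pi.smul_apply, smul_eq_mul, Finset.mul_sum]
  exact Finset.sum_congr rfl fun i _ => by ring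

theorem Bf_smul_left (a : O) (x y : Fin 3 → O) : D.Bf (a • x) y = D.cj a * D.Bf x y := by
  simp only [Bf, Pi.smul_apply, smul_eq_mul, Finset.mul_sum, map_mul]
  exact Finset.sum_congr rfl fun i _ => by ring

theorem Bf_add_right (x y z : Fin 3 → O) : D.Bf x (y + z) = D.Bf x y + D.Bf x z := by
  simp only [Bf, Pi.add_apply, mul_add, Finset.sum_add_distrib]

theorem Bf_add_left (x y z : Fin 3 → O) : D.Bf (x + y) z = D.Bf x z + D.Bf y z := by
  simp only [Bf, Pi.add_apply, map_add, add_mul, mul_add, Finset.sum_add_distrib]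

theorem Bf_neg_right (x y : Fin 3 → O) : D.Bf x (-y) = -D.Bf x y := by
  simp only [Bf, Pi.neg_apply, mul_neg, Finset.sum_neg_distrib]

theorem Bf_neg_left (x y : Fin 3 → O) : D.Bf (-x) y = -D.Bf x y := by
  simp only [Bf, Pi.neg_apply, map_neg, mul_neg, neg_mul, Finset.sum_neg_distrib]

theorem Bf_zero_left (y : Fin 3 → O) : D.Bf 0 y = 0 := by
  simp [Bf]

theorem cj_Bf (x y : Fin 3 → O) : D.cj (D.Bf x y) = D.Bf y x := by
  simp only [Bf, map_sum, map_mul, D.cj_cj, D.cj_hd]
  exact Finset.sum_congr rfl fun i _ => by ring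

include D in
theorem two_ne_zero' : (2 : O) ≠ 0 := by
  intro h
  have h' := congrArg D.s1 h
  rw [map_ofNat, map_zero] at h'
  norm_num at h'

include D in
theorem five_ne_zero : (5 : O) ≠ 0 := by
  intro h
  have h' := congrArg D.s1 h
  rw [map_ofNat, map_zero] at h'
  norm_num at h'

theorem pi_ne_zero : D.pi ≠ 0 := by
  intro h
  have h1 : D.pi ∣ 5 := by
    rw [← D.red_eq_zero, map_ofNat]
    rfl
  rw [h, zero_dvd_iff] at h1
  exact D.five_ne_zero h1

theorem red_of_dvd {x y : O} (h : D.pi ^ 2 ∣ x - y) : D.red x = D.red y := by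
  have h1 : D.pi ∣ x - y := (dvd_pow_self _ two_ne_zero).trans h
  rw [← D.red_eq_zero, map_sub, sub_eq_zero] at h1
  exact h1

theorem dvd_of_mul {d x : O} (hd : D.red d ≠ 0) (h : D.pi ∣ d * x) : D.pi ∣ x := by
  have : Fact (Nat.Prime 5) := ⟨by norm_num⟩
  rw [← D.red_eq_zero, map_mul, mul_eq_zero] at h
  rw [← D.red_eq_zero]
  exact h.resolve_left hd

theorem sq_dvd_of_mul {d x : O} (hd : D.red d ≠ 0) (h : D.pi ^ 2 ∣ d * x) : D.pi ^ 2 ∣ x := by
  obtain ⟨x', rfl⟩ := D.dvd_of_mul hd ((dvd_pow_self _ two_ne_zero).trans h)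
  have h1 : D.pi ∣ d * x' := by
    have h2 : D.pi * D.pi ∣ D.pi * (d * x') := by
      rw [← sq]
      convert h using 1
      ring
    exact (mul_dvd_mul_iff_left D.pi_ne_zero).mp h2
  rw [sq]
  exact mul_dvd_mul_left _ (D.dvd_of_mul hd h1)

/-- A nonzero vector is a multiple of a primitive one. -/
theorem exists_primitive [IsPrincipalIdealRing O] (u : Fin 3 → O) (hu : u ≠ 0) :
    ∃ (d : O) (v b : Fin 3 → O), d ≠ 0 ∧ u = d • v ∧ ∑ k, b k * v k = 1 := by
  obtain ⟨d, hd⟩ := (IsPrincipalIdealRing.principal (Ideal.span (Set.range u))).principal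
  have hmem : ∀ k, u k ∈ Ideal.span (Set.range u) := fun k =>
    Ideal.subset_span (Set.mem_range_self k)
  have hdvd : ∀ k, d ∣ u k := by
    intro k
    have h := hmem k
    rw [hd] at h
    exact Ideal.mem_span_singleton.mp h
  choose v hv using hdvd
  have hd0 : d ≠ 0 := by
    rintro rfl
    apply hu
    funext k
    rw [hv k, zero_mul]
    rfl
  have hdm : d ∈ Ideal.span (Set.range u) := by
    rw [hd]
    exact Submodule.mem_span_singleton_self d
  obtain ⟨b, hb⟩ := Ideal.mem_span_range_iff_exists_fun.mp hdm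
  refine ⟨d, v, b, hd0, ?_, ?_⟩
  · funext k
    exact hv k
  · have h1 : d * ∑ k, b k * v k = d * 1 := by
      rw [mul_one, Finset.mul_sum]
      conv_rhs => rw [← hb]
      exact Finset.sum_congr rfl fun k _ => by rw [hv k]; ring
    exact mul_left_cancel₀ hd0 h1

theorem s2_Bf_pos (x : Fin 3 → O) (hx : x ≠ 0) : 0 < (D.s2 (D.Bf x x)).re := by
  have h1 : D.s2 (D.Bf x x) = ((‖D.s2 (x 0)‖ ^ 2 + ‖D.s2 (x 1)‖ ^ 2 +
      (1 + rho) * ‖D.s2 (x 2)‖ ^ 2 : ℝ) : ℂ) := by
    have e : ∀ z : ℂ, (starRingEnd ℂ) z * z = ((‖z‖ ^ 2 : ℝ) : ℂ) := by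
      intro z
      rw [mul_comm, Complex.mul_conj, Complex.normSq_eq_norm_sq]
    rw [Bf, Fin.sum_univ_three]
    simp only [hd, map_add, map_mul, D.s2_cj, Matrix.cons_val_zero, Matrix.cons_val_one,
      Matrix.cons_val, one_mul, e, D.s2_al]
    push_cast
    ring
  rw [h1, Complex.ofReal_re]
  have hρ := rho_pos
  obtain ⟨k, hk⟩ := Function.ne_iff.mp hx
  have hk' : 0 < ‖D.s2 (x k)‖ ^ 2 := by
    have : D.s2 (x k) ≠ 0 := by
      intro h
      exact hk (D.s2_inj (by rw [h]; simp))
    positivity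
  have n0 := sq_nonneg ‖D.s2 (x 0)‖
  have n1 := sq_nonneg ‖D.s2 (x 1)‖
  have n2 := sq_nonneg ‖D.s2 (x 2)‖
  fin_cases k
  · simp only [Fin.zero_eta] at hk'
    positivity
  · simp only [Fin.mk_one] at hk'
    positivity
  · simp only [Fin.reduceFinMk] at hk'
    positivity

section Frame

variable (g0 g1 : (Fin 3 → O) →ₗ[O] (Fin 3 → O))

/-- Twice the projections. -/
noncomputable def Ep : Fin 3 → ((Fin 3 → O) →ₗ[O] (Fin 3 → O)) :=
  ![LinearMap.id - g1, LinearMap.id - g0.comp g1, LinearMap.id + g0]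

theorem Ep_zero (x : Fin 3 → O) : Ep g0 g1 0 x = x - g1 x := rfl
theorem Ep_one (x : Fin 3 → O) : Ep g0 g1 1 x = x - g0 (g1 x) := rfl
theorem Ep_two (x : Fin 3 → O) : Ep g0 g1 2 x = x + g0 x := rfl

variable (hu0 : ∀ x y, D.Bf (g0 x) (g0 y) = D.Bf x y)
  (hu1 : ∀ x y, D.Bf (g1 x) (g1 y) = D.Bf x y)
  (hs0 : ∀ x, g0 (g0 x) = x) (hs1 : ∀ x, g1 (g1 x) = x)
  (hcomm : ∀ x, g0 (g1 x) = g1 (g0 x))
  (hc0 : ∀ i j, D.pi ^ 2 ∣ g0 (Pi.single i 1) j - (if i = j then ![-1, -1, 1] i else 0))
  (hc1 : ∀ i j, D.pi ^ 2 ∣ g1 (Pi.single i 1) j - (if i = j then ![-1, 1, 1] i else 0))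
  (hfix : ∀ x, g0 x = x → g1 x = x)
  (hneg : ∀ x, g0 x = x → x ≠ 0 → (D.s1 (D.Bf x x)).re < 0)
  (hpos : ∀ x, g0 x = -x → x ≠ 0 → 0 < (D.s1 (D.Bf x x)).re)

include hs0 hcomm hfix in
theorem Ep_key (x : Fin 3 → O) : x + g0 x - g1 x - g0 (g1 x) = 0 := by
  have h := hfix (x + g0 x) (by rw [map_add, hs0, add_comm])
  rw [map_add] at h
  rw [hcomm x, ← h]
  abel

include hs0 hs1 hcomm hfix in
theorem Ep_mul (i j : Fin 3) (x : Fin 3 → O) :
    Ep g0 g1 i (Ep g0 g1 j x) = if i = j then (2 : O) • Ep g0 g1 i x else 0 := by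
  have key := Ep_key g0 g1 hs0 hcomm hfix x
  have e1 : g1 (g0 x) = g0 (g1 x) := (hcomm x).symm
  have e2 : g1 (g0 (g1 x)) = g0 x := by rw [← hcomm, hs1]
  have e3 : g0 (g0 (g1 x)) = g1 x := hs0 _
  fin_cases i <;> fin_cases j <;>
    simp only [Fin.zero_eta, Fin.mk_one, Fin.reduceFinMk, Ep_zero, Ep_one, Ep_two, map_sub,
      map_add, hs0, hs1, e1, e2, e3, if_true, Fin.isValue, Fin.reduceEq, if_false, two_smul,
      reduceIte] <;>
    first
      | (abel_nf; done)
      | (rw [← key]; abel)

include hs0 hcomm hfix in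
theorem Ep_sum (x : Fin 3 → O) :
    Ep g0 g1 0 x + Ep g0 g1 1 x + Ep g0 g1 2 x = (2 : O) • x := by
  have key := Ep_key g0 g1 hs0 hcomm hfix x
  rw [Ep_zero, Ep_one, Ep_two, two_smul, ← sub_eq_zero, ← key]
  abel

include hu0 hu1 hs0 hs1 hcomm in
theorem Ep_adj (i : Fin 3) (x y : Fin 3 → O) :
    D.Bf (Ep g0 g1 i x) y = D.Bf x (Ep g0 g1 i y) := by
  have a0 : ∀ x y, D.Bf (g0 x) y = D.Bf x (g0 y) := by
    intro x y
    conv_lhs => rw [← hs0 y]
    exact hu0 _ _
  have a1 : ∀ x y, D.Bf (g1 x) y = D.Bf x (g1 y) := by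
    intro x y
    conv_lhs => rw [← hs1 y]
    exact hu1 _ _
  fin_cases i <;>
    simp only [Fin.zero_eta, Fin.mk_one, Fin.reduceFinMk, Ep_zero, Ep_one, Ep_two, sub_eq_add_neg,
      D.Bf_add_left, D.Bf_add_right, D.Bf_neg_left, D.Bf_neg_right, a0, a1, hcomm]

include hs0 hcomm hfix hc0 hc1 in
theorem Ep_congr (i j k : Fin 3) :
    D.pi ^ 2 ∣ Ep g0 g1 i (Pi.single j 1) k - (if i = j ∧ j = k then 2 else 0) := by
  have h0 := hc0 j k
  have h1 := hc1 j k
  -- the third: `g0 (g1 e_j)`
  have h2 : D.pi ^ 2 ∣ g0 (g1 (Pi.single j 1)) k - (if j = k then ![1, -1, 1] j else 0) := by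
    have h3 : g0 (g1 (Pi.single j 1)) k = ∑ l, g1 (Pi.single j 1) l * g0 (Pi.single l 1) k := by
      conv_lhs => rw [show g1 (Pi.single j 1) = ∑ l, g1 (Pi.single j 1) l • Pi.single l 1 by
        funext m
        simp [Finset.sum_apply, Pi.single_apply]]
      rw [map_sum, Finset.sum_apply]
      exact Finset.sum_congr rfl fun l _ => by rw [map_smul, Pi.smul_apply, smul_eq_mul]
    rw [h3]
    have h4 : ∀ l, D.pi ^ 2 ∣ g1 (Pi.single j 1) l * g0 (Pi.single l 1) k -
        (if j = l then ![-1, 1, 1] j else 0) * (if l = k then ![-1, -1, 1] l else 0) := by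
      intro l
      have h5 := hc1 j l
      have h6 := hc0 l k
      have h7 : g1 (Pi.single j 1) l * g0 (Pi.single l 1) k -
        (if j = l then ![-1, 1, 1] j else 0) * (if l = k then ![-1, -1, 1] l else 0) =
        (g1 (Pi.single j 1) l - (if j = l then ![-1, 1, 1] j else 0)) * g0 (Pi.single l 1) k +
        (if j = l then ![-1, 1, 1] j else 0) *
          (g0 (Pi.single l 1) k - (if l = k then ![-1, -1, 1] l else 0)) := by ring
      rw [h7]
      exact dvd_add (h5.mul_right _) (h6.mul_left _)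
    have h8 := Finset.dvd_sum (s := Finset.univ) fun l _ => h4 l
    rw [Finset.sum_sub_distrib] at h8
    convert h8 using 2
    fin_cases j <;> fin_cases k <;> simp
  fin_cases i
  · simp only [Fin.zero_eta, Ep_zero, Pi.sub_apply]
    have h9 := dvd_neg.mpr h1
    convert h9 using 1
    fin_cases j <;> fin_cases k <;> simp <;> ring
  · simp only [Fin.mk_one, Ep_one, Pi.sub_apply]
    have h9 := dvd_neg.mpr h2
    convert h9 using 1
    fin_cases j <;> fin_cases k <;> simp <;> ring
  · simp only [Fin.reduceFinMk, Ep_two, Pi.add_apply]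
    convert h0 using 1
    fin_cases j <;> fin_cases k <;> simp <;> ring

include hu0 hu1 hs0 hs1 hcomm hfix hc0 hc1 hneg hpos in
/-- The fixed frame. -/
theorem frame [IsPrincipalIdealRing O] :
    ∃ U : Fin 3 → Fin 3 → O, (∀ i j, D.Bf (U i) (U j) = if i = j then D.hd i else 0) ∧
      (∀ i j, D.pi ^ 2 ∣ U i j - (if i = j then 1 else 0)) ∧ g0 (U 2) = U 2 := by
  set E := Ep g0 g1 with hE
  have Emul := Ep_mul g0 g1 hs0 hs1 hcomm hfix
  have Eadj := D.Ep_adj g0 g1 hu0 hu1 hs0 hs1 hcomm
  have Econg := D.Ep_congr g0 g1 hs0 hcomm hc0 hc1 hfix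
  rw [← hE] at Emul Eadj Econg
  have h2 := D.two_ne_zero'
  have hd2 : D.red 2 ≠ 0 := by
    rw [map_ofNat]
    decide
  -- the vectors `u i`
  set u : Fin 3 → Fin 3 → O := fun i => E i (Pi.single i 1) with hu
  have hucong : ∀ i k, D.pi ^ 2 ∣ u i k - (if i = k then 2 else 0) := by
    intro i k
    have := Econg i i k
    simpa using this
  have hured : ∀ i k, D.red (u i k) = if i = k then 2 else 0 := by
    intro i k
    rw [D.red_of_dvd (hucong i k)]
    split_ifs
    · exact map_ofNat _ _
    · exact map_zero _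
  have huii : ∀ i, u i i ≠ 0 := by
    intro i h
    have := hured i i
    rw [h, map_zero, if_pos rfl] at this
    exact absurd this (by decide)
  have hEu : ∀ i j, E j (u i) = if j = i then (2 : O) • u i else 0 := by
    intro i j
    change E j (E i (Pi.single i 1)) = _
    rw [Emul]
    split_ifs with h
    · rw [h]
    · rfl
  -- the determinant of the three vectors
  set M : Matrix (Fin 3) (Fin 3) O := Matrix.of fun k i => u i k with hM
  have hdet : M.det ≠ 0 := by
    intro h
    have h1 := congrArg D.red h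
    rw [map_zero, RingHom.map_det] at h1
    have h3 : D.red.mapMatrix M = Matrix.diagonal fun _ => 2 := by
      ext k i
      rw [RingHom.mapMatrix_apply, Matrix.map_apply, hM, Matrix.of_apply, hured,
        Matrix.diagonal_apply]
      simp only [eq_comm]
    rw [h3, Matrix.det_diagonal, Fin.prod_univ_three] at h1
    exact absurd h1 (by decide)
  -- a vector killed by the other two is determined by its `i`-th coordinate
  have hline0 : ∀ i (z : Fin 3 → O), (∀ j, j ≠ i → E j z = 0) → z i = 0 → z = 0 := by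
    intro i z hz hzi
    set c : Fin 3 → O := M.adjugate.mulVec z with hc
    have h1 : M.det • z = ∑ k, c k • u k := by
      have h3 : M.mulVec c = M.det • z := by
        rw [hc, Matrix.mulVec_mulVec, Matrix.mul_adjugate, Matrix.smul_mulVec, Matrix.one_mulVec]
      rw [← h3]
      funext k
      rw [Matrix.mulVec, dotProduct, Finset.sum_apply]
      exact Finset.sum_congr rfl fun l _ => by
        rw [hM, Matrix.of_apply, Pi.smul_apply, smul_eq_mul, mul_comm]
    have h4 : ∀ j, j ≠ i → c j = 0 := by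
      intro j hj
      have h5 := congrArg (E j) h1
      rw [map_smul, hz j hj, smul_zero, map_sum] at h5
      rw [Finset.sum_eq_single j] at h5
      · rw [map_smul, hEu, if_pos rfl] at h5
        have h6 := congrFun h5 j
        simp only [Pi.zero_apply, Pi.smul_apply, smul_eq_mul] at h6
        rcases mul_eq_zero.mp h6.symm with h7 | h7
        · exact h7
        · rcases mul_eq_zero.mp h7 with h8 | h8
          · exact absurd h8 h2
          · exact absurd h8 (huii j)
      · intro k _ hk
        rw [map_smul, hEu, if_neg hk.symm, smul_zero]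
      · intro h
        exact absurd (Finset.mem_univ _) h
    rw [Finset.sum_eq_single i] at h1
    · have h5 := congrFun h1 i
      simp only [Pi.smul_apply, smul_eq_mul, hzi, mul_zero] at h5
      have h6 : c i = 0 := (mul_eq_zero.mp h5.symm).resolve_right (huii i)
      rw [h6, zero_smul] at h1
      exact (smul_eq_zero.mp h1).resolve_left hdet
    · intro k _ hk
      rw [h4 k hk, zero_smul]
    · intro h
      exact absurd (Finset.mem_univ _) h
  -- everything for one index
  have main : ∀ i, ∃ w : Fin 3 → O, (∀ j, E j w = if j = i then (2 : O) • w else 0) ∧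
      D.Bf w w = D.hd i ∧ ∀ k, D.pi ^ 2 ∣ w k - (if i = k then 1 else 0) := by
    intro i
    have hui : u i ≠ 0 := fun h => huii i (by rw [h]; rfl)
    obtain ⟨d, v, b, hd0, hdv, hb⟩ := exists_primitive (u i) hui
    have hEv : ∀ j, E j v = if j = i then (2 : O) • v else 0 := by
      intro j
      have h := hEu i j
      rw [hdv, map_smul] at h
      split_ifs at h ⊢ with hj
      · rw [smul_comm] at h
        exact smul_right_injective _ hd0 h
      · exact (smul_eq_zero.mp h).resolve_left hd0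
    have hdvi : ∀ k, u i k = d * v k := fun k => by rw [hdv]; rfl
    have hred : D.red d * D.red (v i) = 2 := by
      rw [← map_mul, ← hdvi, hured, if_pos rfl]
    have hredd : D.red d ≠ 0 := by
      intro h
      rw [h, zero_mul] at hred
      exact absurd hred (by decide)
    have hredv : D.red (v i) ≠ 0 := by
      intro h
      rw [h, mul_zero] at hred
      exact absurd hred (by decide)
    have hvi : v i ≠ 0 := fun h => hredv (by rw [h, map_zero])
    have hvk : ∀ k, k ≠ i → D.pi ^ 2 ∣ v k := by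
      intro k hk
      apply D.sq_dvd_of_mul hredd
      rw [← hdvi]
      have := hucong i k
      rwa [if_neg hk.symm, sub_zero] at this
    have hvredk : ∀ k, k ≠ i → D.red (v k) = 0 := fun k hk =>
      (D.red_eq_zero _).mpr ((dvd_pow_self _ two_ne_zero).trans (hvk k hk))
    set N := D.Bf v v with hN
    have hNr : D.cj N = N := D.cj_Bf v v
    -- `N` divides `2`
    have hNd : N ∣ 2 := by
      set x : Fin 3 → O := fun k => D.hdi k * D.cj (b k) with hx
      have hBx : D.Bf v x = 1 := by
        have h3 : D.Bf v x = D.cj (∑ k, b k * v k) := by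
          rw [Bf, map_sum]
          refine Finset.sum_congr rfl fun k _ => ?_
          rw [hx, map_mul]
          calc D.hd k * (D.cj (v k) * (D.hdi k * D.cj (b k))) =
                (D.hd k * D.hdi k) * (D.cj (b k) * D.cj (v k)) := by ring
            _ = _ := by rw [D.hd_mul_hdi, one_mul]
        rw [h3, hb, map_one]
      set y := E i x with hy
      have hy0 : (v i) • y - (y i) • v = 0 := by
        apply hline0 i
        · intro j hj
          rw [map_sub, map_smul, map_smul, hEv, if_neg hj, hy, Emul, if_neg hj]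
          simp
        · simp only [Pi.sub_apply, Pi.smul_apply, smul_eq_mul]
          ring
      have hc : (v i) * ∑ k, b k * y k = y i := by
        have h4 : ∀ k, v i * y k = y i * v k := by
          intro k
          have := congrFun hy0 k
          simp only [Pi.sub_apply, Pi.smul_apply, smul_eq_mul, Pi.zero_apply] at this
          exact sub_eq_zero.mp this
        rw [Finset.mul_sum]
        calc ∑ k, v i * (b k * y k) = ∑ k, y i * (b k * v k) :=
              Finset.sum_congr rfl fun k _ => by linear_combination (b k) * h4 k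
          _ = y i := by rw [← Finset.mul_sum, hb, mul_one]
      have hyc : y = (∑ k, b k * y k) • v := by
        have h5 : (v i) • y = (v i) • ((∑ k, b k * y k) • v) := by
          rw [smul_smul, hc, ← sub_eq_zero]
          exact hy0
        exact smul_right_injective _ hvi h5
      refine ⟨∑ k, b k * y k, ?_⟩
      have h6 : D.Bf v y = 2 := by
        rw [hy, ← Eadj, hEv, if_pos rfl, D.Bf_smul_left, map_ofNat, hBx, mul_one]
      rw [hyc, D.Bf_smul_right] at h6
      rw [← h6, mul_comm]
    have hv0 : v ≠ 0 := fun h => hvi (by rw [h]; rfl)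
    have hs2 : 0 < (D.s2 N).re := D.s2_Bf_pos v hv0
    have hrN : D.red N = D.red (D.hd i) * D.red (v i) ^ 2 := by
      rw [hN, Bf, map_sum, Finset.sum_eq_single i]
      · rw [map_mul, map_mul, D.red_cj]
        ring
      · intro k _ hk
        rw [map_mul, map_mul, D.red_cj, hvredk k hk]
        ring
      · intro h
        exact absurd (Finset.mem_univ _) h
    -- the norm is `t ^ 2` times the standard value
    have ht : ∃ t : Oˣ, D.cj t = t ∧ N = D.hd i * (t : O) ^ 2 := by
      have hE2 : ∀ j, E j v = if j = i then (2 : O) • v else 0 := hEv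
      fin_cases i
      · have h0 : g0 v = -v := by
          have h3 := hE2 2
          simp only [Fin.zero_eta, Fin.isValue, Fin.reduceEq, if_false] at h3
          rw [hE, Ep_two] at h3
          rw [eq_neg_iff_add_eq_zero, add_comm]
          exact h3
        obtain ⟨t, ht1, ht2⟩ := D.norm_pos hNr hNd (hpos v h0 hv0) hs2 hredv (by
          rw [hrN]; simp [hd])
        exact ⟨t, ht1, by rw [ht2]; simp [hd]⟩
      · have h0 : g0 v = -v := by
          have h3 := hE2 2
          simp only [Fin.mk_one, Fin.isValue, Fin.reduceEq, if_false] at h3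
          rw [hE, Ep_two] at h3
          rw [eq_neg_iff_add_eq_zero, add_comm]
          exact h3
        obtain ⟨t, ht1, ht2⟩ := D.norm_pos hNr hNd (hpos v h0 hv0) hs2 hredv (by
          rw [hrN]; simp [hd])
        exact ⟨t, ht1, by rw [ht2]; simp [hd]⟩
      · have h0 : g0 v = v := by
          have h3 := hE2 0
          have h4 := hE2 1
          simp only [Fin.reduceFinMk, Fin.isValue, Fin.reduceEq, if_false] at h3 h4
          rw [hE, Ep_zero, sub_eq_zero] at h3
          rw [hE, Ep_one, ← h3, sub_eq_zero] at h4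
          exact h4.symm
        obtain ⟨t, ht1, ht2⟩ := D.norm_neg hNr hNd (hneg v h0 hv0) hs2 hredv (by
          rw [hrN]; simp [hd, D.red_al])
        exact ⟨t, ht1, by rw [ht2]; simp [hd]⟩
    obtain ⟨t, ht1, ht2⟩ := ht
    have hti : D.cj ((t⁻¹ : Oˣ) : O) = ((t⁻¹ : Oˣ) : O) := by
      have h3 := congrArg D.cj t.mul_inv
      rw [map_mul, ht1, map_one, ← t.mul_inv] at h3
      exact mul_left_cancel₀ t.ne_zero h3
    set v' : Fin 3 → O := ((t⁻¹ : Oˣ) : O) • v with hv'
    have hBv' : D.Bf v' v' = D.hd i := by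
      rw [hv', D.Bf_smul_left, D.Bf_smul_right, hti, ← hN, ht2]
      have h3 : ((t⁻¹ : Oˣ) : O) * (t : O) = 1 := t.inv_mul
      calc ((t⁻¹ : Oˣ) : O) * (((t⁻¹ : Oˣ) : O) * (D.hd i * (t : O) ^ 2)) =
            D.hd i * ((((t⁻¹ : Oˣ) : O) * (t : O)) * (((t⁻¹ : Oˣ) : O) * (t : O))) := by ring
        _ = D.hd i := by rw [h3]; ring
    have hv'k : ∀ k, k ≠ i → D.pi ^ 2 ∣ v' k := fun k hk => (hvk k hk).mul_left _
    have ha : D.pi ^ 2 ∣ v' i * D.cj (v' i) - 1 := by
      have h3 : D.pi ^ 2 ∣ D.hd i * (v' i * D.cj (v' i) - 1) := by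
        have h4 : D.hd i * (v' i * D.cj (v' i) - 1) =
            -∑ k ∈ Finset.univ.erase i, D.hd k * (D.cj (v' k) * v' k) := by
          have h5 : D.hd i * (D.cj (v' i) * v' i) +
              ∑ k ∈ Finset.univ.erase i, D.hd k * (D.cj (v' k) * v' k) = D.hd i := by
            rw [Finset.add_sum_erase _ (fun k => D.hd k * (D.cj (v' k) * v' k))
              (Finset.mem_univ i)]
            exact hBv'
          linear_combination h5
        rw [h4, dvd_neg]
        refine Finset.dvd_sum fun k hk => ?_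
        exact ((hv'k k (Finset.ne_of_mem_erase hk)).mul_left _).mul_left _
      have h6 := h3.mul_left (D.hdi i)
      rwa [← mul_assoc, mul_comm (D.hdi i), D.hd_mul_hdi, one_mul] at h6
    obtain ⟨e, he1, he2⟩ := D.unit_adj _ ha
    refine ⟨e • v', ?_, ?_, ?_⟩
    · intro j
      rw [map_smul, hv', map_smul, hEv]
      split_ifs with hj
      · rw [smul_comm _ (2 : O), smul_comm _ (2 : O)]
      · simp
    · rw [D.Bf_smul_left, D.Bf_smul_right, hBv', ← mul_assoc, mul_comm (D.cj e), he1, one_mul]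
    · intro k
      by_cases hk : i = k
      · rw [if_pos hk, ← hk]
        exact he2
      · rw [if_neg hk, sub_zero]
        exact (hv'k k (Ne.symm hk)).mul_left _
  choose U hU1 hU2 hU3 using main
  refine ⟨U, ?_, hU3, ?_⟩
  · intro i j
    by_cases hij : i = j
    · rw [← hij, if_pos rfl, hU2]
    · rw [if_neg hij]
      have h3 : (2 : O) * D.Bf (U i) (U j) = 0 := by
        rw [← D.Bf_smul_right]
        have h4 := hU1 j j
        rw [if_pos rfl] at h4
        rw [← h4, ← Eadj, hU1 i j, if_neg (Ne.symm hij), D.Bf_zero_left]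
      exact (mul_eq_zero.mp h3).resolve_left h2
  · have h3 := hU1 2 0
    have h4 := hU1 2 1
    simp only [Fin.isValue, Fin.reduceEq, if_false] at h3 h4
    rw [hE, Ep_zero, sub_eq_zero] at h3
    rw [hE, Ep_one, ← h3, sub_eq_zero] at h4
    exact h4.symm

end Frame

end Pool.Agent.MP_f1864b_gt.Num.NumData
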