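import Pool.Agent.Lib.MP_f1864b_gt.Num.Ring

set_option autoImplicit false

/-!
`ℤ[ζ]` is a principal ideal domain.
-/

namespace Pool.Agent.Dold.Num

open Complex Polynomial Matrix NumberField

theorem exists_emb {K : Type} [Field K] [NumberField K] [IsCyclotomicExtension {5} ℚ K]
    {ζ : K} (hζ : IsPrimitiveRoot ζ 5) (z : ℂ) (hz : IsPrimitiveRoot z 5) :
    ∃ f : K →ₐ[ℚ] ℂ, f ζ = z := by
  set e := hζ.embeddingsEquivPrimitiveRoots ℂ (Polynomial.cyclotomic.irreducible_rat (by norm_num))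
    with he
  refine ⟨e.symm ⟨z, (mem_primitiveRoots (by norm_num)).2 hz⟩, ?_⟩
  have := hζ.embeddingsEquivPrimitiveRoots_apply_coe ℂ
    (Polynomial.cyclotomic.irreducible_rat (by norm_num))
    (e.symm ⟨z, (mem_primitiveRoots (by norm_num)).2 hz⟩)
  rw [← this, ← he, Equiv.apply_symm_apply]

theorem pid_aux (K : Type) [Field K] [NumberField K] [IsCyclotomicExtension {5} ℚ K] :
    IsPrincipalIdealRing OO := by
  have hζ := IsCyclotomicExtension.zeta_spec 5 ℚ K
  obtain ⟨f1, hf1⟩ := exists_emb hζ ze ze_prim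
  obtain ⟨f2, hf2⟩ := exists_emb hζ (ze ^ 2) ze2_prim
  set F : 𝓞 K →+* ℂ × ℂ :=
    ((f1 : K →+* ℂ).prod (f2 : K →+* ℂ)).comp (algebraMap (𝓞 K) K) with hF
  have hgen : F hζ.toInteger = om := by
    rw [hF]
    ext
    · exact hf1
    · exact hf2
  have haev : ∀ p : ℤ[X], F (Polynomial.aeval hζ.toInteger p) = Polynomial.aeval om p := by
    intro p
    rw [Polynomial.aeval_def, Polynomial.hom_eval₂, hgen, Polynomial.aeval_def]
    congr 1
    exact Subsingleton.elim _ _
  have hex : ∀ x : 𝓞 K, ∃ p : ℤ[X], x = Polynomial.aeval hζ.toInteger p := by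
    intro x
    have h := IsCyclotomicExtension.Rat.adjoin_singleton_eq_top hζ
    have hx : x ∈ (⊤ : Subalgebra ℤ (𝓞 K)) := trivial
    rw [← h, Algebra.adjoin_singleton_eq_range_aeval] at hx
    obtain ⟨p, hp⟩ := hx
    exact ⟨p, hp.symm⟩
  have hmem : ∀ x, F x ∈ OO := by
    intro x
    obtain ⟨p, rfl⟩ := hex x
    exact ⟨p, (haev p).symm⟩
  have hpid : IsPrincipalIdealRing (𝓞 K) := IsCyclotomicExtension.Rat.five_pid K
  refine IsPrincipalIdealRing.of_surjective (F.codRestrict OO hmem) ?_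
  rintro ⟨y, p, hp⟩
  refine ⟨Polynomial.aeval hζ.toInteger p, Subtype.ext ?_⟩
  change F (Polynomial.aeval hζ.toInteger p) = y
  rw [haev]
  exact hp

instance : IsPrincipalIdealRing OO := by
  have : NeZero ((5 : ℕ) : ℚ) := ⟨by norm_num⟩
  have h1 : IsCyclotomicExtension {5} ℚ (CyclotomicField 5 ℚ) :=
    CyclotomicField.isCyclotomicExtension 5 ℚ
  have : NumberField (CyclotomicField 5 ℚ) := IsCyclotomicExtension.numberField {5} ℚ _
  exact pid_aux (CyclotomicField 5 ℚ)

end Pool.Agent.Dold.Num
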