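import Pool.Agent.Lib.MP_f1864b_gt.Num.Odd
import Pool.Agent.Lib.MP_f1864b_gt.Num.Fields
import Pool.Agent.Lib.MP_f1864b_gt.Num.Pid
import Pool.Agent.Lib.MP_f1864b_gt.A.Disc
import Pool.Agent.Lib.MP_f1864b_gt.A.Cocompact

set_option autoImplicit false

/-!
# MP_f1864b_gt: the lattice

The principal congruence subgroup of level `(1 - ζ)²` of the unitary group of the hermitian form
`diag(1, 1, (1 - √5)/2)` over `ℤ[ζ]` has all properties of `LatticeData`.
-/

namespace Pool.Agent.MP_f1864b_gt.Num

open Complex Matrix Pool.Agent.Dold.Num Pool.Agent.MP_f1864b_gt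

/-- The action of the congruence subgroup on the ball is free. -/
theorem free : ∀ g ∈ Gam, ∀ w ∈ Ball, act g.1 w = w → g = 1 :=
  free_of Coc.gam_unitary Coc.gam_discontinuous

/-- The data of the arithmetic side. -/
theorem latticeData : LatticeData Gam where
  unitary := Coc.gam_unitary
  discontinuous := Coc.gam_discontinuous
  free := free
  cocompact := Coc.gam_cocompact
  conj_mem := Pool.Agent.Dold.Num.conj_mem
  z_conj_mem := Pool.Agent.Dold.Num.z_conj_mem
  z_notMem := Pool.Agent.Dold.Num.z_notMem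
  neg_z_notMem := Pool.Agent.Dold.Num.neg_z_notMem
  neg_sM := neg_sM' red red_eq_zero
  odd := odd_specialOrbits Pool.Agent.Dold.Num.z_conj_mem red red_eq_zero free
    Coc.gam_discontinuous Coc.gam_cocompact

/-- The arithmetic side. -/
theorem exists_latticeData : ∃ Γ : Subgroup (GL (Fin 3) ℂ), LatticeData Γ := ⟨Gam, latticeData⟩

end Pool.Agent.MP_f1864b_gt.Num
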