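import Pool.Agent.Lib.MP_f1864b_gt.Num.Special

set_option autoImplicit false

/-!
# MP_f1864b_gt: the number of the special orbits is odd
-/

namespace Pool.Agent.MP_f1864b_gt.Num

open Complex Matrix Pool.Agent.Dold.Num

/-- A finite set with an involution which has exactly one fixed point has odd cardinality. -/
theorem odd_of_involution {α : Type*} (S : Set α) (hS : S.Finite) (f : α → α)
    (hf : ∀ a ∈ S, f a ∈ S) (hff : ∀ a ∈ S, f (f a) = a) (a0 : α) (ha0 : a0 ∈ S)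
    (h0 : f a0 = a0) (huniq : ∀ a ∈ S, f a = a → a = a0) : Odd S.ncard := by
  classical
  rw [Set.ncard_eq_toFinset_card S hS]
  set T := hS.toFinset with hT
  have hmem : ∀ a, a ∈ T ↔ a ∈ S := fun a => hS.mem_toFinset
  have h1 : ∑ a ∈ T.erase a0, (1 : ZMod 2) = 0 := by
    refine Finset.sum_involution (fun a _ => f a) ?_ ?_ ?_ ?_
    · intro a _
      decide
    · intro a ha _ hfa
      rw [Finset.mem_erase, hmem] at ha
      exact ha.1 (huniq a ha.2 hfa)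
    · intro a ha
      rw [Finset.mem_erase, hmem] at ha ⊢
      refine ⟨fun h => ha.1 ?_, hf a ha.2⟩
      rw [← hff a ha.2, h, h0]
    · intro a ha
      rw [Finset.mem_erase, hmem] at ha
      exact hff a ha.2
  rw [Finset.sum_const, nsmul_eq_mul, mul_one] at h1
  have h2 : Even (T.erase a0).card := by
    rwa [ZMod.natCast_eq_zero_iff_even] at h1
  rw [← Finset.card_erase_add_one ((hmem a0).mpr ha0)]
  exact h2.add_one

theorem HU_Gam {g : GL (Fin 3) ℂ} (hg : g ∈ Gam) : HU g.1 := by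
  obtain ⟨G, hG, hGg⟩ := mem_Gam hg
  rw [← hGg]
  exact IsU.HU hG.1

theorem mul_inv_val (g : GL (Fin 3) ℂ) : g.1 * (g⁻¹ : GL (Fin 3) ℂ).1 = 1 := by
  rw [← Units.val_mul, mul_inv_cancel]
  rfl

theorem act_inv {g : GL (Fin 3) ℂ} (hg : g ∈ Gam) {w w' : ℂ × ℂ} (hw : w ∈ Ball)
    (h : act g.1 w = w') : act (g⁻¹ : GL (Fin 3) ℂ).1 w' = w := by
  have h1 := act_mul' (HU_Gam (Gam.inv_mem hg)).qf_eq (HU_Gam hg).qf_eq hw
  rw [← Units.val_mul, inv_mul_cancel, Units.val_one, act_one, h] at h1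
  exact h1.symm

/-- The orbit does not depend on the representative. -/
theorem orb_act {g : GL (Fin 3) ℂ} (hg : g ∈ Gam) {w : ℂ × ℂ} (hw : w ∈ Ball) :
    orb Gam (act g.1 w) = orb Gam w := by
  ext x
  constructor
  · rintro ⟨k, hk, hkx⟩
    refine ⟨k * g, Gam.mul_mem hk hg, ?_⟩
    rw [Units.val_mul, act_mul' (HU_Gam hk).qf_eq (HU_Gam hg).qf_eq hw, hkx]
  · rintro ⟨k, hk, hkx⟩
    refine ⟨k * g⁻¹, Gam.mul_mem hk (Gam.inv_mem hg), ?_⟩
    rw [Units.val_mul, act_mul' (HU_Gam hk).qf_eq (HU_Gam (Gam.inv_mem hg)).qf_eq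
      (act_mem (HU_Gam hg).qf_eq hw), act_inv hg hw rfl, hkx]

theorem mem_orb_self (w : ℂ × ℂ) : w ∈ orb Gam w := ⟨1, Gam.one_mem, act_one w⟩

/-- The element `d₁`. -/
noncomputable def dG : GL (Fin 3) ℂ := ⟨dc, dc, dc_mul_dc, dc_mul_dc⟩

theorem HU_dG : HU dG.1 := HU_dc

theorem dG_conj {g : GL (Fin 3) ℂ} (hg : g ∈ Gam) : dG * g * dG ∈ Gam := by
  obtain ⟨G, hG, rfl⟩ := hg
  refine ⟨D1G * G * D1G, D1G_conj hG, ?_⟩
  rw [map_mul, map_mul]
  have h : Matrix.GeneralLinearGroup.map s1 D1G = dG := by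
    ext1
    exact cm_D1
  rw [h]

theorem dG_mul_dG : dG * dG = 1 := by
  ext1
  exact dc_mul_dc

theorem dG_mul_zG : dG * zG = zG * dG := by
  ext1
  exact dc_mul_zG

/-- The involution on the points. -/
def sg (w : ℂ × ℂ) : ℂ × ℂ := (-w.1, w.2)

theorem sg_sg (w : ℂ × ℂ) : sg (sg w) = w := by simp [sg]

theorem act_dG (w : ℂ × ℂ) : act dG.1 w = sg w := act_dc w

theorem sg_mem {w : ℂ × ℂ} (hw : w ∈ Ball) : sg w ∈ Ball := by
  rw [← act_dG]
  exact act_mem HU_dc.qf_eq hw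

/-- Special points are mapped to special points by elements which normalise `Γ` and commute with
`z` modulo `Γ`. -/
theorem special_act {k : GL (Fin 3) ℂ} (hk : HU k.1)
    (hnorm : ∀ g ∈ Gam, k * g * (zG * k⁻¹ * zG) ∈ Gam) {w : ℂ × ℂ} (hw : w ∈ Ball)
    (hs : Special Gam w) : Special Gam (act k.1 w) := by
  obtain ⟨g, hg, hgw⟩ := hs
  refine ⟨k * g * (zG * k⁻¹ * zG), hnorm g hg, ?_⟩
  have h1 : k * g * (zG * k⁻¹ * zG) * zG = k * (g * zG) * k⁻¹ := by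
    have := zG_mul_zG
    calc k * g * (zG * k⁻¹ * zG) * zG = k * g * zG * k⁻¹ * (zG * zG) := by group
      _ = k * (g * zG) * k⁻¹ := by rw [this]; group
  rw [h1, Units.val_mul, Units.val_mul, hgw, ← sM_act hk hw, Matrix.mul_assoc, mul_inv_val,
    Matrix.mul_one]

variable (hz : ∀ g ∈ Gam, zG * g * zG ∈ Gam)

include hz in
theorem special_Gam {g : GL (Fin 3) ℂ} (hg : g ∈ Gam) {w : ℂ × ℂ} (hw : w ∈ Ball)
    (hs : Special Gam w) : Special Gam (act g.1 w) :=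
  special_act (HU_Gam hg)
    (fun k hk => Gam.mul_mem (Gam.mul_mem hg hk) (hz _ (Gam.inv_mem hg))) hw hs

theorem special_sg {w : ℂ × ℂ} (hw : w ∈ Ball) (hs : Special Gam w) : Special Gam (sg w) := by
  rw [← act_dG]
  refine special_act (k := dG) HU_dG ?_ hw hs
  intro g hg
  have h1 : zG * dG⁻¹ * zG = dG := by
    have h2 : dG⁻¹ = dG := inv_eq_of_mul_eq_one_right dG_mul_dG
    rw [h2, ← dG_mul_zG, mul_assoc, zG_mul_zG, mul_one]
  rw [h1]
  exact dG_conj hg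

/-- `d₁` on the orbits. -/
theorem image_orb {w : ℂ × ℂ} (hw : w ∈ Ball) : sg '' orb Gam w = orb Gam (sg w) := by
  have key : ∀ u ∈ Ball, sg '' orb Gam u ⊆ orb Gam (sg u) := by
    rintro u hu _ ⟨_, ⟨g, hg, rfl⟩, rfl⟩
    refine ⟨dG * g * dG, dG_conj hg, ?_⟩
    rw [Units.val_mul, Units.val_mul,
      act_mul' (HU_dG.mul (HU_Gam hg)).qf_eq HU_dG.qf_eq (sg_mem hu), act_dG,
      sg_sg, act_mul' HU_dG.qf_eq (HU_Gam hg).qf_eq hu, act_dG]
  apply Set.Subset.antisymm (key w hw)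
  intro x hx
  have h := key (sg w) (sg_mem hw) (Set.mem_image_of_mem _ hx)
  rw [sg_sg] at h
  exact ⟨sg x, h, sg_sg x⟩

include hz in
/-- There are only finitely many special orbits. -/
theorem finite_specialOrbits
    (hdisc : ∀ K : Set (ℂ × ℂ), K ⊆ Ball → IsCompact K →
      {g : GL (Fin 3) ℂ | g ∈ Gam ∧ ∃ w ∈ K, act g.1 w ∈ K}.Finite)
    (hcoc : ∃ K : Set (ℂ × ℂ), K ⊆ Ball ∧ IsCompact K ∧ ∀ w ∈ Ball, ∃ g ∈ Gam, act g.1 w ∈ K) :
    (specialOrbits Gam).Finite := by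
  obtain ⟨K, hK, hKc, hKs⟩ := hcoc
  set m : ℂ × ℂ → ℂ × ℂ := fun w => (-w.1, -w.2) with hm
  have hmz : ∀ w, act zG.1 w = m w := act_zG
  have hmB : m '' K ⊆ Ball := by
    rintro _ ⟨w, hw, rfl⟩
    rw [← hmz]
    exact act_mem HU_zG.qf_eq (hK hw)
  have hmc : Continuous m := by
    rw [hm]
    fun_prop
  have hfin := hdisc (K ∪ m '' K) (Set.union_subset hK hmB) (hKc.union (hKc.image hmc))
  set T : Set (ℂ × ℂ) := {w | w ∈ K ∧ Special Gam w} with hT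
  have hTf : T.Finite := by
    have hch : ∀ w : T, ∃ g : GL (Fin 3) ℂ, g ∈ Gam ∧ (g * zG).1 = sM w.1 := by
      rintro ⟨w, hw, g, hg, hgw⟩
      exact ⟨g, hg, hgw⟩
    choose γ hγ1 hγ2 using hch
    have hinj : Function.Injective γ := by
      intro a b hab
      have h1 := hγ2 a
      rw [hab, hγ2 b] at h1
      exact Subtype.ext (sM_inj (hK b.2.1) h1).symm
    have hmaps : ∀ a, γ a ∈ {g : GL (Fin 3) ℂ | g ∈ Gam ∧
        ∃ w ∈ K ∪ m '' K, act g.1 w ∈ K ∪ m '' K} := by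
      intro a
      refine ⟨hγ1 a, m a.1, Or.inr ⟨_, a.2.1, rfl⟩, Or.inl ?_⟩
      rw [← hmz, ← act_mul' (HU_Gam (hγ1 a)).qf_eq HU_zG.qf_eq (hK a.2.1), ← Units.val_mul, hγ2,
        act_eq_of_mulVec one_ne_zero (w' := a.1)]
      · exact a.2.1
      · rw [sM_lift3 _ (hK a.2.1), one_smul]
    have hfinT : Finite T := by
      have := hfin.to_subtype
      exact Finite.of_injective (fun a => (⟨γ a, hmaps a⟩ : {g : GL (Fin 3) ℂ | g ∈ Gam ∧
        ∃ w ∈ K ∪ m '' K, act g.1 w ∈ K ∪ m '' K})) (fun a b hab => hinj (Subtype.ext_iff.mp hab))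
    exact Set.toFinite T
  refine (hTf.image (orb Gam)).subset ?_
  rintro _ ⟨w, ⟨hw, hws⟩, rfl⟩
  obtain ⟨g, hg, hgK⟩ := hKs w hw
  exact ⟨act g.1 w, ⟨hgK, special_Gam hz hg hw hws⟩, orb_act hg hw⟩

theorem zero_mem_Ball : (0 : ℂ × ℂ) ∈ Ball := by
  change ‖(0 : ℂ × ℂ).1‖ ^ 2 + ‖(0 : ℂ × ℂ).2‖ ^ 2 < rho
  simp [rho_pos]

theorem special_zero : Special Gam 0 := by
  refine ⟨1, Gam.one_mem, ?_⟩
  rw [one_mul, zG_val]
  have hρ := rho_pos
  have hq : qf (lift3 0) = -rho := by simp [qf, lift3]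
  ext i j
  unfold sM
  rw [hq]
  have h2 : (rho : ℂ) ≠ 0 := by exact_mod_cast hρ.ne'
  fin_cases i <;> fin_cases j <;> simp [lift3]
  field_simp
  norm_num

include hz in
/-- The number of the special orbits is odd. -/
theorem odd_specialOrbits [IsPrincipalIdealRing OO] (red : OO →+* ZMod 5)
    (hred : ∀ x, red x = 0 ↔ piO ∣ x)
    (hfree : ∀ g ∈ Gam, ∀ w ∈ Ball, act g.1 w = w → g = 1)
    (hdisc : ∀ K : Set (ℂ × ℂ), K ⊆ Ball → IsCompact K →
      {g : GL (Fin 3) ℂ | g ∈ Gam ∧ ∃ w ∈ K, act g.1 w ∈ K}.Finite)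
    (hcoc : ∃ K : Set (ℂ × ℂ), K ⊆ Ball ∧ IsCompact K ∧ ∀ w ∈ Ball, ∃ g ∈ Gam, act g.1 w ∈ K) :
    Odd (specialOrbits Gam).ncard := by
  apply odd_of_involution _ (finite_specialOrbits hz hdisc hcoc) (fun A => sg '' A)
    (a0 := orb Gam 0)
  · rintro _ ⟨w, ⟨hw, hws⟩, rfl⟩
    exact ⟨sg w, ⟨sg_mem hw, special_sg hw hws⟩, (image_orb hw).symm⟩
  · intro A _
    rw [← Set.image_comp]
    have : sg ∘ sg = id := funext sg_sg
    rw [this, Set.image_id]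
  · exact ⟨0, ⟨zero_mem_Ball, special_zero⟩, rfl⟩
  · rw [image_orb zero_mem_Ball]
    have : sg 0 = 0 := by simp [sg]
    rw [this]
  · rintro _ ⟨w, ⟨hw, hws⟩, rfl⟩ h
    change sg '' orb Gam w = orb Gam w at h
    rw [image_orb hw] at h
    have h1 : sg w ∈ orb Gam w := by
      rw [← h]
      exact mem_orb_self _
    obtain ⟨g, hg, hgw⟩ := h1
    obtain ⟨k, hk, hk0⟩ := special_unique red hred hfree w hw hws
      ⟨g⁻¹, Gam.inv_mem hg, by
        rw [act_mul' (HU_Gam (Gam.inv_mem hg)).qf_eq HU_dc.qf_eq hw]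
        exact act_inv hg hw (by rw [hgw]; exact (act_dG w).symm)⟩
    rw [← hk0]
    exact orb_act hk zero_mem_Ball

end Pool.Agent.MP_f1864b_gt.Num
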