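import Pool.Agent.Lib.MP_f1864b_gt.Num.Ring

set_option autoImplicit false

/-!
The reduction `ℤ[ζ] → 𝔽₅` and the powers of `π = 1 - ζ`.
-/

namespace Pool.Agent.Dold.Num

open Complex Polynomial Matrix

/-- The evaluation of integral polynomials at `ω`. -/
noncomputable def evO : ℤ[X] →+* OO :=
  ((Polynomial.aeval om : ℤ[X] →ₐ[ℤ] ℂ × ℂ) : ℤ[X] →+* ℂ × ℂ).codRestrict OO
    (fun p => ⟨p, rfl⟩)

theorem evO_coe (p : ℤ[X]) : (evO p : ℂ × ℂ) = Polynomial.aeval om p := rfl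

theorem evO_surjective : Function.Surjective evO := by
  rintro ⟨x, p, hp⟩
  exact ⟨p, Subtype.ext hp⟩

theorem evO_X : evO X = zO := by
  apply Subtype.ext
  rw [evO_coe, Polynomial.aeval_X]
  rfl

theorem s1_evO (p : ℤ[X]) : s1 (evO p) = Polynomial.aeval ze p := by
  have h1 : s1 (evO p) = (RingHom.fst ℂ ℂ) (Polynomial.aeval om p) := rfl
  rw [h1, Polynomial.aeval_def, Polynomial.hom_eval₂, Polynomial.aeval_def]
  congr 1

theorem cyclotomic_dvd {p : ℤ[X]} (h : evO p = 0) : cyclotomic 5 ℤ ∣ p := by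
  have h1 : Polynomial.aeval ze p = 0 := by rw [← s1_evO, h, map_zero]
  have h2 := minpoly.isIntegrallyClosed_dvd (ze_prim.isIntegral (by norm_num)) h1
  rwa [← Polynomial.cyclotomic_eq_minpoly ze_prim (by norm_num)] at h2

/-- The evaluation of integral polynomials at `1` modulo `5`. -/
noncomputable def evF : ℤ[X] →+* ZMod 5 := Polynomial.eval₂RingHom (Int.castRingHom (ZMod 5)) 1

theorem ker_le : RingHom.ker evO ≤ RingHom.ker evF := by
  intro p hp
  rw [RingHom.mem_ker] at hp ⊢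
  obtain ⟨q, rfl⟩ := cyclotomic_dvd hp
  rw [map_mul]
  have : evF (cyclotomic 5 ℤ) = 0 := by
    unfold evF
    rw [Polynomial.coe_eval₂RingHom, Polynomial.eval₂_eq_eval_map, Polynomial.map_cyclotomic]
    have : Fact (Nat.Prime 5) := ⟨by norm_num⟩
    rw [Polynomial.eval_one_cyclotomic_prime]
    rfl
  rw [this, zero_mul]

/-- The reduction modulo `π`. -/
noncomputable def red : OO →+* ZMod 5 :=
  evO.liftOfSurjective evO_surjective ⟨evF, ker_le⟩

theorem red_evO (p : ℤ[X]) : red (evO p) = evF p :=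
  evO.liftOfRightInverse_comp_apply _ _ ⟨evF, ker_le⟩ p

theorem red_zO : red zO = 1 := by
  rw [← evO_X, red_evO]
  simp [evF]

theorem red_piO : red piO = 0 := by
  unfold piO
  rw [map_sub, map_one, red_zO, sub_self]

theorem red_cj (x : OO) : red (cj x) = red x := by
  obtain ⟨n, hn⟩ := exists_coords x
  rw [hn]
  simp only [map_add, map_mul, map_pow, map_intCast, cj_zO, red_zO, one_pow]

theorem red_al : red al = 3 := by
  unfold al
  rw [map_neg, map_add, map_pow, red_zO]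
  decide

theorem five_eq : (5 : OO) = piO * (4 + 3 * zO + 2 * zO ^ 2 + zO ^ 3) := by
  have := zO_sum
  unfold piO
  linear_combination this

/-- The cofactor of `π⁴` in `5`. -/
noncomputable def uO : OO := (1 + zO) * (1 + zO + zO ^ 2) * (1 + zO + zO ^ 2 + zO ^ 3)

theorem five_eq_pow : (5 : OO) = piO ^ 4 * uO := by
  have hs := zO_sum
  have h5 := zO_pow
  unfold piO uO
  have h4 : zO ^ 4 = -1 - zO - zO ^ 2 - zO ^ 3 := by linear_combination hs
  have e1 : (1 - zO) * (1 + zO) = 1 - zO ^ 2 := by ring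
  have e2 : (1 - zO) * (1 + zO + zO ^ 2) = 1 - zO ^ 3 := by ring
  have e3 : (1 - zO) * (1 + zO + zO ^ 2 + zO ^ 3) = 1 - zO ^ 4 := by ring
  calc (5 : OO) = (1 - zO) * (1 - zO ^ 2) * (1 - zO ^ 3) * (1 - zO ^ 4) := by
        have e : (1 - zO) * (1 - zO ^ 2) * (1 - zO ^ 3) * (1 - zO ^ 4) =
          ((1 - zO) * (1 - zO ^ 4)) * ((1 - zO ^ 2) * (1 - zO ^ 3)) := by ring
        have e4 : (1 - zO) * (1 - zO ^ 4) = 2 - zO - zO ^ 4 := by
          linear_combination h5
        have e5 : (1 - zO ^ 2) * (1 - zO ^ 3) = 2 - zO ^ 2 - zO ^ 3 := by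
          linear_combination h5
        rw [e, e4, e5]
        linear_combination hs - (zO + zO ^ 2) * h5
    _ = (1 - zO) ^ 4 * ((1 + zO) * (1 + zO + zO ^ 2) * (1 + zO + zO ^ 2 + zO ^ 3)) := by
        rw [← e1, ← e2, ← e3]
        ring

theorem red_uO : red uO ≠ 0 := by
  unfold uO
  simp only [map_mul, map_add, map_pow, map_one, red_zO]
  decide

theorem red_eq_zero (x : OO) : red x = 0 ↔ piO ∣ x := by
  constructor
  · intro h
    obtain ⟨n, hn⟩ := exists_coords x
    have h1 : ((n 0 + n 1 + n 2 + n 3 : ℤ) : ZMod 5) = 0 := by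
      rw [hn] at h
      simp only [map_add, map_mul, map_pow, map_intCast, red_zO, one_pow, mul_one] at h
      push_cast
      exact h
    rw [ZMod.intCast_zmod_eq_zero_iff_dvd] at h1
    obtain ⟨m, hm⟩ := h1
    have h2 : ((n 0 : OO) + n 1 + n 2 + n 3) = 5 * (m : OO) := by
      have := congrArg (Int.cast : ℤ → OO) hm
      push_cast at this
      exact this
    rw [hn]
    refine ⟨-(n 1 : OO) - n 2 * (1 + zO) - n 3 * (1 + zO + zO ^ 2) +
      (4 + 3 * zO + 2 * zO ^ 2 + zO ^ 3) * m, ?_⟩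
    have h3 := five_eq
    have h4 : (n 0 : OO) = 5 * (m : OO) - n 1 - n 2 - n 3 := by linear_combination h2
    rw [h4]
    unfold piO at h3 ⊢
    linear_combination (m : OO) * h3
  · rintro ⟨y, rfl⟩
    rw [map_mul, red_piO, zero_mul]

theorem piO_dvd_five : piO ∣ 5 := ⟨_, five_eq⟩

theorem piO_sq_dvd_five : piO ^ 2 ∣ 5 := by
  rw [five_eq_pow]
  exact ⟨piO ^ 2 * uO, by ring⟩

theorem not_isUnit_piO : ¬ IsUnit piO := by
  intro h
  have := h.map red
  rw [red_piO] at this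
  have : Fact (Nat.Prime 5) := ⟨by norm_num⟩
  exact not_isUnit_zero ‹_›

theorem piO_ne_zero : piO ≠ 0 := by
  intro h
  have := five_eq
  rw [h, zero_mul] at this
  have h2 := congrArg s1 this
  rw [map_ofNat, map_zero] at h2
  norm_num at h2

/-- The product of the absolute values of `π` at the two places is `√5`. -/
theorem norm_piO : (‖s1 piO‖ * ‖s2 piO‖) ^ 2 = 5 := by
  have h : piO * cj piO = ((2 : ℤ) : OO) + ((-1 : ℤ) : OO) * thO := by
    unfold piO thO
    rw [map_sub, map_one, cj_zO]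
    push_cast
    linear_combination zO_pow
  have h1 := norm_sq_s1 h
  have h2 := norm_sq_s2 h
  rw [mul_pow, h1, h2]
  push_cast
  linear_combination -th_sq

/-- A nonzero element is not divisible by all the powers of `π`. -/
theorem exists_pow_not_dvd {x : OO} (hx : x ≠ 0) : ∃ k : ℕ, ¬ piO ^ k ∣ x := by
  by_contra hall
  push Not at hall
  set c : ℝ := ‖s1 piO‖ * ‖s2 piO‖ with hc
  have hc2 : c ^ 2 = 5 := norm_piO
  have hc0 : 0 ≤ c := by positivity
  have hc1 : 1 < c := by nlinarith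
  obtain ⟨k, hk⟩ := pow_unbounded_of_one_lt (‖s1 x‖ * ‖s2 x‖) hc1
  obtain ⟨y, hy⟩ := hall k
  have hy0 : y ≠ 0 := by
    rintro rfl
    rw [mul_zero] at hy
    exact hx hy
  have h1 := norm_ge y hy0
  have h2 : ‖s1 x‖ * ‖s2 x‖ = c ^ k * (‖s1 y‖ * ‖s2 y‖) := by
    rw [hy, map_mul, map_mul, map_pow, map_pow, norm_mul, norm_mul, norm_pow, norm_pow, hc,
      mul_pow]
    ring
  have h3 : c ^ k ≤ c ^ k * (‖s1 y‖ * ‖s2 y‖) := by
    have : 0 < c ^ k := by positivity
    nlinarith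
  linarith

/-- The first two terms of the expansion in powers of `π`. -/
theorem exists_mod_sq (a : OO) : ∃ s t : ℤ, piO ^ 2 ∣ a - ((s : OO) - t * piO) := by
  obtain ⟨n, hn⟩ := exists_coords a
  refine ⟨n 0 + n 1 + n 2 + n 3, n 1 + 2 * n 2 + 3 * n 3, (n 2 : OO) + n 3 * (2 + zO), ?_⟩
  rw [hn]
  unfold piO
  push_cast
  ring

theorem int_five_dvd {m : ℤ} (h : piO ∣ (m : OO)) : (5 : ℤ) ∣ m := by
  have := (red_eq_zero _).2 h
  rw [map_intCast] at this
  exact (ZMod.intCast_zmod_eq_zero_iff_dvd m 5).1 this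

theorem piO_sq_dvd_int {m : ℤ} (h : (5 : ℤ) ∣ m) : piO ^ 2 ∣ (m : OO) := by
  obtain ⟨k, rfl⟩ := h
  push_cast
  exact Dvd.dvd.mul_right piO_sq_dvd_five _

theorem zO_pow_mod (k : ℕ) : piO ^ 2 ∣ zO ^ k - (1 - (k : OO) * piO) := by
  induction k with
  | zero => simp
  | succ k ih =>
    obtain ⟨y, hy⟩ := ih
    refine ⟨zO * y + k, ?_⟩
    have h : zO = 1 - piO := by unfold piO; ring
    push_cast
    rw [pow_succ]
    linear_combination zO * hy + (1 - (k : OO) * piO) * h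

/-- Adjustment by a root of unity. -/
theorem unit_adj (a : OO) (ha : piO ^ 2 ∣ a * cj a - 1) :
    ∃ e, e * cj e = 1 ∧ piO ^ 2 ∣ e * a - 1 := by
  obtain ⟨s, t, y, hy⟩ := exists_mod_sq a
  have hra : red a = (s : ZMod 5) := by
    have h := congrArg red hy
    simp only [map_sub, map_mul, map_pow, map_intCast, red_piO] at h
    linear_combination h
  have hs2 : ((s ^ 2 - 1 : ℤ) : ZMod 5) = 0 := by
    obtain ⟨w, hw⟩ := ha
    have h := congrArg red hw
    simp only [map_sub, map_mul, map_pow, map_one, red_piO, red_cj, hra] at h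
    push_cast
    linear_combination h
  rw [ZMod.intCast_zmod_eq_zero_iff_dvd] at hs2
  have hε : ∃ ε : ℤ, (ε = 1 ∨ ε = -1) ∧ (5 : ℤ) ∣ ε * s - 1 := by
    have h5 : Prime (5 : ℤ) := by norm_num
    have h6 : (5 : ℤ) ∣ (s - 1) * (s + 1) := by
      have : (s - 1) * (s + 1) = s ^ 2 - 1 := by ring
      rw [this]
      exact_mod_cast hs2
    rcases h5.dvd_or_dvd h6 with h | h
    · exact ⟨1, Or.inl rfl, by simpa using h⟩
    · refine ⟨-1, Or.inr rfl, ?_⟩
      have : -1 * s - 1 = -(s + 1) := by ring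
      rw [this]
      exact (dvd_neg).2 h
  obtain ⟨ε, hε1, m, hm⟩ := hε
  have hεsq : ε * ε = 1 := by rcases hε1 with rfl | rfl <;> norm_num
  obtain ⟨k, hk⟩ : ∃ k : ℕ, (5 : ℤ) ∣ ε * t + k := by
    refine ⟨((-(ε * t)) % 5).toNat, ?_⟩
    have h1 : 0 ≤ (-(ε * t)) % 5 := Int.emod_nonneg _ (by norm_num)
    rw [Int.toNat_of_nonneg h1]
    omega
  obtain ⟨l, hl⟩ := hk
  obtain ⟨v, hv⟩ := zO_pow_mod k
  obtain ⟨f, hf⟩ := piO_sq_dvd_five
  refine ⟨(ε : OO) * zO ^ k, ?_, ?_⟩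
  · have h1 : ((ε : OO) * ε) = 1 := by exact_mod_cast congrArg (Int.cast : ℤ → OO) hεsq
    rw [map_mul, map_pow, map_intCast, cj_zO]
    calc (ε : OO) * zO ^ k * (ε * (zO ^ 4) ^ k) = ((ε : OO) * ε) * (zO ^ 5) ^ k := by ring
      _ = 1 := by rw [h1, zO_pow]; simp
  · have hm' : (ε : OO) * s - 1 = 5 * (m : OO) := by exact_mod_cast congrArg (Int.cast : ℤ → OO) hm
    have hl' : (ε : OO) * t + k = 5 * (l : OO) := by exact_mod_cast congrArg (Int.cast : ℤ → OO) hl
    refine ⟨(ε : OO) * zO ^ k * y + ε * v * (s - t * piO) + ε * k * t + f * m -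
      f * (l + k * m) * piO, ?_⟩
    linear_combination (ε : OO) * zO ^ k * hy + ε * (s - t * piO) * hv +
      (1 - k * piO) * hm' - piO * hl' + (m - (l + k * m) * piO) * hf

end Pool.Agent.Dold.Num
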