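import Pool.Agent.Lib.MP_f1864b_gt.Num.Frame
import Pool.Agent.Lib.MP_f1864b_gt.Num.Geo
import Pool.Agent.Lib.MP_f1864b_gt.Num.Data

set_option autoImplicit false

/-!
# MP_f1864b_gt: a special point of the ball whose orbit is fixed by `d₁` lies in the orbit of the
origin
-/

namespace Pool.Agent.MP_f1864b_gt.Num

open Complex Matrix Pool.Agent.Dold.Num

/-! ### Complex matrices which preserve the form -/

/-- The matrix preserves the hermitian form. -/
def HU (g : Matrix (Fin 3) (Fin 3) ℂ) : Prop := ∀ x y, hf (g *ᵥ x) (g *ᵥ y) = hf x y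

theorem HU.qf_eq {g : Matrix (Fin 3) (Fin 3) ℂ} (hg : HU g) (v : Fin 3 → ℂ) :
    qf (g *ᵥ v) = qf v := by
  have h := hg v v
  rw [hf_self, hf_self] at h
  exact_mod_cast h

theorem HU.mul {g k : Matrix (Fin 3) (Fin 3) ℂ} (hg : HU g) (hk : HU k) : HU (g * k) := by
  intro x y
  rw [← Matrix.mulVec_mulVec, ← Matrix.mulVec_mulVec, hg, hk]

theorem HU_diag (a : Fin 3 → ℂ) (ha : ∀ i, starRingEnd ℂ (a i) * a i = 1) :
    HU (Matrix.diagonal a) := by
  intro x y
  unfold hf
  simp only [Matrix.mulVec_diagonal, map_mul]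
  linear_combination (starRingEnd ℂ (x 0) * y 0) * ha 0 + (starRingEnd ℂ (x 1) * y 1) * ha 1 -
    (rho * (starRingEnd ℂ (x 2) * y 2)) * ha 2

/-- The matrix `d₁ = diag(-1, 1, 1)`. -/
def dc : Matrix (Fin 3) (Fin 3) ℂ := Matrix.diagonal ![-1, 1, 1]

theorem HU_dc : HU dc := HU_diag _ (by intro i; fin_cases i <;> simp)

theorem zG_val : (zG : Matrix (Fin 3) (Fin 3) ℂ) = Matrix.diagonal ![-1, -1, 1] := rfl

theorem HU_zG : HU zG.1 := HU_diag _ (by intro i; fin_cases i <;> simp)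

theorem dc_mul_dc : dc * dc = 1 := by
  unfold dc
  rw [Matrix.diagonal_mul_diagonal, ← Matrix.diagonal_one]
  congr 1
  ext i
  fin_cases i <;> simp

theorem zG_mul_zG : zG * zG = 1 := by
  ext1
  exact zG.val_inv

theorem dc_mul_zG : dc * zG.1 = zG.1 * dc := by
  rw [zG_val]
  unfold dc
  rw [Matrix.diagonal_mul_diagonal, Matrix.diagonal_mul_diagonal]
  congr 1
  ext i
  fin_cases i <;> simp

theorem act_dc (w : ℂ × ℂ) : act dc w = (-w.1, w.2) := by
  apply act_eq_of_mulVec one_ne_zero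
  funext i
  unfold dc
  rw [Matrix.mulVec_diagonal]
  fin_cases i <;> simp [lift3]

theorem act_zG (w : ℂ × ℂ) : act zG.1 w = (-w.1, -w.2) := by
  apply act_eq_of_mulVec one_ne_zero
  funext i
  rw [zG_val, Matrix.mulVec_diagonal]
  fin_cases i <;> simp [lift3]

theorem sM_sM (w : ℂ × ℂ) (hw : w ∈ Ball) (v : Fin 3 → ℂ) : sM w *ᵥ (sM w *ᵥ v) = v := by
  have hq : (qf (lift3 w) : ℂ) ≠ 0 := by
    have := qf_lift3_neg hw
    exact_mod_cast this.ne
  have h1 : ∀ (a : ℂ) (x : Fin 3 → ℂ), hf (lift3 w) (-x + a • lift3 w) =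
      -hf (lift3 w) x + a * qf (lift3 w) := by
    intro a x
    rw [← hf_self]
    unfold hf
    simp only [Pi.add_apply, Pi.neg_apply, Pi.smul_apply, smul_eq_mul]
    ring
  rw [sM_mulVec w v, sM_mulVec, h1, div_mul_cancel₀ _ hq]
  rw [show 2 * (-hf (lift3 w) v + 2 * hf (lift3 w) v) / (qf (lift3 w) : ℂ) =
    2 * hf (lift3 w) v / qf (lift3 w) by ring]
  abel

theorem sM_lift3 (w : ℂ × ℂ) (hw : w ∈ Ball) : sM w *ᵥ lift3 w = lift3 w := by
  have hq : (qf (lift3 w) : ℂ) ≠ 0 := by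
    have := qf_lift3_neg hw
    exact_mod_cast this.ne
  rw [sM_mulVec, hf_self, mul_div_assoc, div_self hq, mul_one, two_smul]
  abel

/-- The fixed vectors of `sM w`. -/
theorem sM_fixed {w : ℂ × ℂ} {v : Fin 3 → ℂ} (h : sM w *ᵥ v = v) :
    v = (hf (lift3 w) v / qf (lift3 w)) • lift3 w := by
  rw [sM_mulVec] at h
  have h2 : (2 : ℂ) • v = (2 : ℂ) • ((hf (lift3 w) v / qf (lift3 w)) • lift3 w) := by
    rw [smul_smul, ← mul_div_assoc]
    rw [two_smul]
    nth_rewrite 1 [← h]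
    abel
  exact smul_right_injective _ two_ne_zero h2

/-- The vectors changed in sign by `sM w`. -/
theorem sM_neg {w : ℂ × ℂ} (hw : w ∈ Ball) {v : Fin 3 → ℂ} (h : sM w *ᵥ v = -v) :
    hf (lift3 w) v = 0 := by
  have hq : (qf (lift3 w) : ℂ) ≠ 0 := by
    have := qf_lift3_neg hw
    exact_mod_cast this.ne
  rw [sM_mulVec, add_eq_left] at h
  rcases smul_eq_zero.mp h with h1 | h1
  · rw [div_eq_zero_iff] at h1
    rcases h1 with h1 | h1
    · simpa using h1
    · exact absurd h1 hq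
  · exact absurd h1 lift3_ne

theorem sM_inj {w w' : ℂ × ℂ} (hw : w ∈ Ball) (h : sM w = sM w') : w = w' := by
  have h1 := sM_lift3 w hw
  rw [h] at h1
  have h2 := sM_fixed h1
  exact (lift3_inj h2.symm).symm

theorem sM_act {g : Matrix (Fin 3) (Fin 3) ℂ} (hg : HU g) {w : ℂ × ℂ} (hw : w ∈ Ball) :
    sM (act g w) * g = g * sM w := by
  have hne := act_ne hg.qf_eq hw
  have hl := mulVec_lift3 hne
  set a := (g *ᵥ lift3 w) 2 with ha
  have hq : (qf (lift3 w) : ℂ) ≠ 0 := by
    have := qf_lift3_neg hw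
    exact_mod_cast this.ne
  have hq' : (qf (lift3 (act g w)) : ℂ) ≠ 0 := by
    have := qf_lift3_neg (act_mem hg.qf_eq hw)
    exact_mod_cast this.ne
  have ha' : starRingEnd ℂ a ≠ 0 := by simpa using hne
  have e1 : (qf (lift3 w) : ℂ) = starRingEnd ℂ a * a * qf (lift3 (act g w)) := by
    rw [← hf_self, ← hg, hl, hf_smul_left, hf_smul_right, hf_self]
    ring
  apply Matrix.ext_of_mulVec_single
  intro j
  rw [← Matrix.mulVec_mulVec, ← Matrix.mulVec_mulVec, sM_mulVec, sM_mulVec]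
  set v : Fin 3 → ℂ := Pi.single j 1
  have e2 : hf (lift3 w) v = starRingEnd ℂ a * hf (lift3 (act g w)) (g *ᵥ v) := by
    rw [← hg, hl, hf_smul_left]
  rw [Matrix.mulVec_add, Matrix.mulVec_neg, Matrix.mulVec_smul, hl, smul_smul, e1, e2]
  congr 2
  field_simp

/-! ### Matrices over `ℤ[ζ]` -/

/-- The complex matrix. -/
noncomputable def cm (g : Matrix (Fin 3) (Fin 3) OO) : Matrix (Fin 3) (Fin 3) ℂ := g.map s1

theorem cm_mul (g k : Matrix (Fin 3) (Fin 3) OO) : cm (g * k) = cm g * cm k :=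
  Matrix.map_mul

theorem cm_one : cm 1 = 1 := Matrix.map_one _ (map_zero _) (map_one _)

theorem cm_inj {g k : Matrix (Fin 3) (Fin 3) OO} (h : cm g = cm k) : g = k :=
  Matrix.map_injective s1_injective h

theorem cm_mulVec (g : Matrix (Fin 3) (Fin 3) OO) (x : Fin 3 → OO) :
    cm g *ᵥ (s1 ∘ x) = s1 ∘ (g *ᵥ x) := by
  funext i
  exact (RingHom.map_mulVec s1 g x i).symm

theorem s1_comp_inj {x y : Fin 3 → OO} (h : s1 ∘ x = s1 ∘ y) : x = y := by
  funext i
  exact s1_injective (congrFun h i)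

/-- Unitary matrices. -/
def IsU (g : Matrix (Fin 3) (Fin 3) OO) : Prop := (g.map cj)ᵀ * hO * g = hO

theorem IsU.mul {g k : Matrix (Fin 3) (Fin 3) OO} (hg : IsU g) (hk : IsU k) : IsU (g * k) := by
  unfold IsU at *
  rw [Matrix.map_mul, Matrix.transpose_mul]
  calc (k.map cj)ᵀ * (g.map cj)ᵀ * hO * (g * k) = (k.map cj)ᵀ * ((g.map cj)ᵀ * hO * g) * k := by
        simp only [Matrix.mul_assoc]
    _ = hO := by rw [hg, hk]

theorem IsU_diag (a : Fin 3 → OO) (ha : ∀ i, cj (a i) * a i = 1) : IsU (Matrix.diagonal a) := by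
  unfold IsU hO
  rw [Matrix.diagonal_map (map_zero cj), Matrix.diagonal_transpose, Matrix.diagonal_mul_diagonal,
    Matrix.diagonal_mul_diagonal]
  congr 1
  funext i
  linear_combination (![1, 1, al] i) * ha i

theorem IsU.HU {g : Matrix (Fin 3) (Fin 3) OO} (hg : IsU g) : HU (cm g) := by
  have key : ∀ x y : Fin 3 → ℂ, hf x y = (fun i => starRingEnd ℂ (x i)) ⬝ᵥ (cm hO *ᵥ y) := by
    intro x y
    have h1 : cm hO = Matrix.diagonal ![1, 1, -(rho : ℂ)] := by
      unfold cm hO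
      rw [Matrix.diagonal_map (map_zero s1)]
      congr 1
      funext i
      fin_cases i
      · simp
      · simp
      · have : s1 al = -(rho : ℂ) := by
          rw [al_eq, map_neg, s1_thO]
          rfl
        simpa using this
    rw [h1, dotProduct, Fin.sum_univ_three]
    simp only [Matrix.mulVec_diagonal, hf, Matrix.cons_val_zero, Matrix.cons_val_one,
      Matrix.cons_val]
    ring
  intro x y
  rw [key, key]
  have h2 : (fun i => starRingEnd ℂ ((cm g *ᵥ x) i)) =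
      cm (g.map cj) *ᵥ (fun i => starRingEnd ℂ (x i)) := by
    funext i
    simp only [Matrix.mulVec, dotProduct, map_sum, map_mul]
    rfl
  rw [h2, ← Matrix.vecMul_transpose, ← Matrix.dotProduct_mulVec, Matrix.mulVec_mulVec,
    Matrix.mulVec_mulVec]
  congr 2
  have h3 := congrArg cm hg
  rw [cm_mul, cm_mul] at h3
  exact h3

theorem hf_comp (red : OO →+* ZMod 5) (hred : ∀ x, red x = 0 ↔ piO ∣ x) (x y : Fin 3 → OO) :
    hf (s1 ∘ x) (s1 ∘ y) = s1 ((numData red hred).Bf x y) := by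
  have h1 : s1 al = -(rho : ℂ) := by
    rw [al_eq, map_neg, s1_thO]
    rfl
  unfold NumData.Bf hf
  rw [Fin.sum_univ_three]
  simp only [NumData.hd, numData, Function.comp_apply, map_add, map_mul, s1_cj,
    Matrix.cons_val_zero, Matrix.cons_val_one, Matrix.cons_val, h1, one_mul]
  ring

theorem IsU.Bf (red : OO →+* ZMod 5) (hred : ∀ x, red x = 0 ↔ piO ∣ x)
    {g : Matrix (Fin 3) (Fin 3) OO} (hg : IsU g) (x y : Fin 3 → OO) :
    (numData red hred).Bf (g *ᵥ x) (g *ᵥ y) = (numData red hred).Bf x y := by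
  apply s1_injective
  rw [← hf_comp, ← hf_comp, ← cm_mulVec, ← cm_mulVec, hg.HU]

/-- Congruence modulo `π²`. -/
def Cg (g k : Matrix (Fin 3) (Fin 3) OO) : Prop := ∀ i j, piO ^ 2 ∣ (g - k) i j

theorem Cg.mul_right {g k : Matrix (Fin 3) (Fin 3) OO} (h : Cg g k)
    (m : Matrix (Fin 3) (Fin 3) OO) : Cg (g * m) (k * m) := by
  intro i j
  rw [← Matrix.sub_mul, Matrix.mul_apply]
  exact Finset.dvd_sum fun l _ => Dvd.dvd.mul_right (h i l) _

/-- The matrix `d₁`. -/
noncomputable def D1 : Matrix (Fin 3) (Fin 3) OO := Matrix.diagonal ![-1, 1, 1]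

/-- The matrix `z`. -/
noncomputable def Zm : Matrix (Fin 3) (Fin 3) OO := Matrix.diagonal ![-1, -1, 1]

theorem cm_D1 : cm D1 = dc := by
  unfold cm D1 dc
  rw [Matrix.diagonal_map (map_zero s1)]
  congr 1
  funext i
  fin_cases i <;> simp

theorem cm_Zm : cm Zm = zG.1 := by
  rw [zG_val]
  unfold cm Zm
  rw [Matrix.diagonal_map (map_zero s1)]
  congr 1
  funext i
  fin_cases i <;> simp

theorem IsU_D1 : IsU D1 := IsU_diag _ (by intro i; fin_cases i <;> simp)

theorem IsU_Zm : IsU Zm := IsU_diag _ (by intro i; fin_cases i <;> simp)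

theorem D1_mul_D1 : D1 * D1 = 1 := by
  unfold D1
  rw [Matrix.diagonal_mul_diagonal, ← Matrix.diagonal_one]
  congr 1
  ext1 i
  fin_cases i <;> simp

/-- The element `d₁` of the general linear group. -/
noncomputable def D1G : GL (Fin 3) OO := ⟨D1, D1, D1_mul_D1, D1_mul_D1⟩

theorem D1G_conj {g : GL (Fin 3) OO} (hg : g ∈ Gam0) : D1G * g * D1G ∈ Gam0 := by
  refine ⟨?_, fun i j => ?_⟩
  · exact (IsU_D1.mul hg.1).mul IsU_D1
  · have h1 : ((D1G * g * D1G : GL (Fin 3) OO) : Matrix (Fin 3) (Fin 3) OO) - 1 =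
        D1 * ((g : Matrix (Fin 3) (Fin 3) OO) - 1) * D1 := by
      rw [Matrix.mul_sub, Matrix.sub_mul, Matrix.mul_one, D1_mul_D1]
      rfl
    rw [h1]
    unfold D1
    rw [Matrix.mul_diagonal, Matrix.diagonal_mul]
    exact Dvd.dvd.mul_right (Dvd.dvd.mul_left (hg.2 i j) _) _

theorem mem_Gam {g : GL (Fin 3) ℂ} (hg : g ∈ Gam) : ∃ G ∈ Gam0, cm (G : GL (Fin 3) OO).1 = g.1 := by
  obtain ⟨G, hG, rfl⟩ := hg
  exact ⟨G, hG, rfl⟩

theorem exists_Gam {G : GL (Fin 3) OO} (hG : G ∈ Gam0) : ∃ g ∈ Gam, (g : GL (Fin 3) ℂ).1 = cm G.1 :=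
  ⟨_, ⟨G, hG, rfl⟩, rfl⟩

section Unique

variable (red : OO →+* ZMod 5) (hred : ∀ x, red x = 0 ↔ piO ∣ x)

include hred in
theorem neg_sM' (w : ℂ × ℂ) (hw : w ∈ Ball) (g : GL (Fin 3) ℂ) (hg : g ∈ Gam) :
    (g * zG).1 ≠ -sM w := by
  intro h
  obtain ⟨G, hG, hGg⟩ := mem_Gam hg
  have h1 : cm (G.1 * Zm) = -sM w := by
    rw [cm_mul, hGg, cm_Zm]
    exact h
  have hq : (qf (lift3 w) : ℂ) ≠ 0 := by
    have := qf_lift3_neg hw
    exact_mod_cast this.ne
  have h2 : (sM w).trace = -1 := by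
    have h3 : (2 : ℂ) * hf (lift3 w) (lift3 w) / qf (lift3 w) = 2 := by
      rw [hf_self, mul_div_assoc, div_self hq, mul_one]
    have h4 : (sM w).trace = -3 + 2 * hf (lift3 w) (lift3 w) / qf (lift3 w) := by
      rw [Matrix.trace_fin_three]
      simp only [sM, if_true]
      unfold hf
      simp only [Matrix.cons_val_zero, Matrix.cons_val_one, Matrix.cons_val]
      ring
    rw [h4, h3]
    norm_num
  have h4 : s1 (G.1 * Zm).trace = 1 := by
    have h5 : s1 (G.1 * Zm).trace = (cm (G.1 * Zm)).trace := by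
      simp only [Matrix.trace, Matrix.diag, map_sum]
      rfl
    rw [h5, h1, Matrix.trace_neg, h2]
    norm_num
  have h6 : (G.1 * Zm).trace = 1 := s1_injective (by rw [h4, map_one])
  have hc : Cg (G.1 * Zm) Zm := by
    have := Cg.mul_right (g := G.1) (k := 1) hG.2 Zm
    rwa [Matrix.one_mul] at this
  have h7 : piO ^ 2 ∣ (G.1 * Zm).trace - Zm.trace := by
    rw [← Matrix.trace_sub]
    exact Finset.dvd_sum fun i _ => hc i i
  have h8 : Zm.trace = (-1 : OO) := by
    unfold Zm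
    rw [Matrix.trace_diagonal, Fin.sum_univ_three]
    simp
  rw [h6, h8] at h7
  have h9 : red (1 - (-1)) = 0 := (hred _).mpr ((dvd_pow_self _ two_ne_zero).trans h7)
  rw [map_sub, map_one, map_neg, map_one] at h9
  exact absurd h9 (by decide)

include hred in
/-- A special point whose orbit is fixed by `d₁` lies in the orbit of the origin. -/
theorem special_unique [IsPrincipalIdealRing OO]
    (hfree : ∀ g ∈ Gam, ∀ w ∈ Ball, act g.1 w = w → g = 1) (w : ℂ × ℂ) (hw : w ∈ Ball)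
    (hs : Special Gam w) (hd : ∃ g ∈ Gam, act ((g : GL (Fin 3) ℂ).1 * dc) w = w) :
    ∃ g ∈ Gam, act (g : GL (Fin 3) ℂ).1 0 = w := by
  set D := numData red hred with hD
  obtain ⟨γ, hγ, hγw⟩ := hs
  obtain ⟨G, hG, hGγ⟩ := mem_Gam hγ
  obtain ⟨δ, hδ, hδw⟩ := hd
  obtain ⟨Δ, hΔ, hΔδ⟩ := mem_Gam hδ
  have hq : (qf (lift3 w) : ℂ) ≠ 0 := by
    have := qf_lift3_neg hw
    exact_mod_cast this.ne
  -- the two matrices
  set g0 : Matrix (Fin 3) (Fin 3) OO := G.1 * Zm with hg0
  set g1 : Matrix (Fin 3) (Fin 3) OO := Δ.1 * D1 with hg1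
  have hc0 : cm g0 = sM w := by
    rw [hg0, cm_mul, hGγ, cm_Zm]
    exact hγw
  have hc1 : cm g1 = δ.1 * dc := by rw [hg1, cm_mul, hΔδ, cm_D1]
  have hU0 : IsU g0 := IsU.mul hG.1 IsU_Zm
  have hU1 : IsU g1 := IsU.mul hΔ.1 IsU_D1
  have hC0 : Cg g0 Zm := by
    have := Cg.mul_right (g := G.1) (k := 1) hG.2 Zm
    rwa [Matrix.one_mul] at this
  have hC1 : Cg g1 D1 := by
    have := Cg.mul_right (g := Δ.1) (k := 1) hΔ.2 D1
    rwa [Matrix.one_mul] at this
  -- `g1` fixes the line of `w`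
  have hne : (cm g1 *ᵥ lift3 w) 2 ≠ 0 := act_ne hU1.HU.qf_eq hw
  set c : ℂ := (cm g1 *ᵥ lift3 w) 2 with hc
  have hg1w : cm g1 *ᵥ lift3 w = c • lift3 w := by
    have h := mulVec_lift3 hne
    rw [hc1] at h
    rw [hδw] at h
    rw [hc, hc1]
    exact h
  -- `g1 ^ 2 = 1`
  have hsq : g1 * g1 = 1 := by
    have hP : Δ * (D1G * Δ * D1G) ∈ Gam0 := Gam0.mul_mem hΔ (D1G_conj hΔ)
    obtain ⟨p, hp, hpP⟩ := exists_Gam hP
    have e1 : (Δ * (D1G * Δ * D1G) : GL (Fin 3) OO).1 = g1 * g1 := by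
      rw [hg1]
      change Δ.1 * (D1 * Δ.1 * D1) = _
      simp only [Matrix.mul_assoc]
    have h1 : act p.1 w = w := by
      rw [hpP, e1, cm_mul]
      apply act_eq_of_mulVec (mul_ne_zero hne hne)
      rw [← Matrix.mulVec_mulVec, hg1w, Matrix.mulVec_smul, hg1w, smul_smul]
    have h2 := hfree p hp w hw h1
    apply cm_inj
    rw [← e1, ← hpP, h2, cm_one]
    rfl
  have hcc : c * c = 1 := by
    have h1 : cm g1 *ᵥ (cm g1 *ᵥ lift3 w) = lift3 w := by
      rw [Matrix.mulVec_mulVec, ← cm_mul, hsq, cm_one, Matrix.one_mulVec]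
    rw [hg1w, Matrix.mulVec_smul, hg1w, smul_smul] at h1
    have h2 := congrFun h1 2
    simpa [lift3] using h2
  have hc' : c = 1 ∨ c = -1 := mul_self_eq_one_iff.mp hcc
  have hcconj : starRingEnd ℂ c = c := by rcases hc' with h | h <;> rw [h] <;> simp
  -- fixed vectors
  have hfixv : ∀ x : Fin 3 → OO, g0 *ᵥ x = x → s1 ∘ x =
      (hf (lift3 w) (s1 ∘ x) / qf (lift3 w)) • lift3 w := by
    intro x hx
    apply sM_fixed
    rw [← hc0, cm_mulVec, hx]
  have hs0 : ∀ x, g0 *ᵥ (g0 *ᵥ x) = x := by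
    intro x
    apply s1_comp_inj
    rw [← cm_mulVec, ← cm_mulVec, hc0, sM_sM w hw]
  have hs1 : ∀ x, g1 *ᵥ (g1 *ᵥ x) = x := by
    intro x
    rw [Matrix.mulVec_mulVec, hsq, Matrix.one_mulVec]
  have hg1fix : ∀ x : Fin 3 → OO, g0 *ᵥ x = x → s1 ∘ (g1 *ᵥ x) = c • (s1 ∘ x) := by
    intro x hx
    have h := hfixv x hx
    rw [← cm_mulVec]
    rw [h, Matrix.mulVec_smul, hg1w, smul_comm]
  have hc1' : c = 1 := by
    rcases hc' with h | h
    · exact h
    · exfalso
      set x : Fin 3 → OO := Pi.single 2 1 + g0 *ᵥ Pi.single 2 1 with hx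
      have h1 : g0 *ᵥ x = x := by rw [hx, Matrix.mulVec_add, hs0, add_comm]
      have h2 : g1 *ᵥ x = -x := by
        apply s1_comp_inj
        rw [hg1fix x h1, h]
        funext i
        simp
      have h3 : red (x 2) = 2 := by
        have h4 := hC0 2 2
        have h5 : x 2 = 1 + g0 2 2 := by
          rw [hx]
          simp [Matrix.mulVec_single]
        have h6 : red ((g0 - Zm) 2 2) = 0 :=
          (hred _).mpr ((dvd_pow_self _ two_ne_zero).trans h4)
        rw [Matrix.sub_apply, map_sub, sub_eq_zero] at h6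
        rw [h5, map_add, map_one, h6]
        unfold Zm
        rw [Matrix.diagonal_apply_eq]
        simp
        decide
      have h4 : red ((g1 *ᵥ x) 2) = 2 := by
        have h5 : ∀ j, red (g1 2 j) = red (D1 2 j) := by
          intro j
          have h6 : red ((g1 - D1) 2 j) = 0 :=
            (hred _).mpr ((dvd_pow_self _ two_ne_zero).trans (hC1 2 j))
          rw [Matrix.sub_apply, map_sub, sub_eq_zero] at h6
          exact h6
        rw [Matrix.mulVec, dotProduct, map_sum, Fin.sum_univ_three]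
        simp only [map_mul, h5]
        unfold D1
        simp [h3]
      rw [h2, Pi.neg_apply, map_neg, h3] at h4
      exact absurd h4 (by decide)
  -- the hypotheses of the frame theorem
  have hcomm : ∀ x, g0 *ᵥ (g1 *ᵥ x) = g1 *ᵥ (g0 *ᵥ x) := by
    intro x
    apply s1_comp_inj
    rw [← cm_mulVec, ← cm_mulVec, ← cm_mulVec, ← cm_mulVec, hc0, sM_mulVec, sM_mulVec,
      Matrix.mulVec_add, Matrix.mulVec_neg, Matrix.mulVec_smul, hg1w, hc1', one_smul]
    congr 3
    have h1 := hU1.HU (lift3 w) (s1 ∘ x)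
    rw [hg1w, hc1', one_smul] at h1
    rw [h1]
  have hfix : ∀ x, g0 *ᵥ x = x → g1 *ᵥ x = x := by
    intro x hx
    apply s1_comp_inj
    rw [hg1fix x hx, hc1', one_smul]
  have hneg : ∀ x : Fin 3 → OO, g0 *ᵥ x = x → x ≠ 0 → (s1 (D.Bf x x)).re < 0 := by
    intro x hx hx0
    have h := hfixv x hx
    rw [hD, ← hf_comp, hf_self, Complex.ofReal_re]
    set a : ℂ := hf (lift3 w) (s1 ∘ x) / qf (lift3 w) with ha
    have ha0 : a ≠ 0 := by
      intro h0
      rw [h0, zero_smul] at h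
      apply hx0
      apply s1_comp_inj
      rw [h]
      funext i
      simp
    rw [h, qf_smul]
    have h1 : 0 < ‖a‖ ^ 2 := by
      have := norm_pos_iff.mpr ha0
      positivity
    exact mul_neg_of_pos_of_neg h1 (qf_lift3_neg hw)
  have hpos : ∀ x : Fin 3 → OO, g0 *ᵥ x = -x → x ≠ 0 → 0 < (s1 (D.Bf x x)).re := by
    intro x hx hx0
    rw [hD, ← hf_comp, hf_self, Complex.ofReal_re]
    apply hf_pos (qf_lift3_neg hw)
    · apply sM_neg hw
      rw [← hc0, cm_mulVec, hx]
      funext i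
      simp
    · intro h
      apply hx0
      apply s1_comp_inj
      rw [h]
      funext i
      simp
  obtain ⟨U, hU1', hU2', hU3'⟩ := D.frame g0.mulVecLin g1.mulVecLin
    (fun x y => hU0.Bf red hred x y) (fun x y => hU1.Bf red hred x y) hs0 hs1 hcomm
    (by
      intro i j
      have h := hC0 j i
      rw [Matrix.sub_apply] at h
      rw [Matrix.mulVecLin_apply, Matrix.mulVec_single_one, Matrix.col_apply]
      have e : Zm j i = (if i = j then ![-1, -1, 1] i else 0) := by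
        unfold Zm
        rw [Matrix.diagonal_apply]
        by_cases hij : i = j
        · subst hij
          simp
        · rw [if_neg hij, if_neg (Ne.symm hij)]
      rw [e] at h
      exact h)
    (by
      intro i j
      have h := hC1 j i
      rw [Matrix.sub_apply] at h
      rw [Matrix.mulVecLin_apply, Matrix.mulVec_single_one, Matrix.col_apply]
      have e : D1 j i = (if i = j then ![-1, 1, 1] i else 0) := by
        unfold D1
        rw [Matrix.diagonal_apply]
        by_cases hij : i = j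
        · subst hij
          simp
        · rw [if_neg hij, if_neg (Ne.symm hij)]
      rw [e] at h
      exact h)
    hfix hneg hpos
  -- the matrix with the columns `U i`
  set V : Matrix (Fin 3) (Fin 3) OO := Matrix.of fun i j => U j i with hV
  have hVU : IsU V := by
    unfold IsU
    refine Matrix.ext fun i j => ?_
    rw [Matrix.mul_apply]
    have h1 : ∀ k, ((V.map cj)ᵀ * hO) i k = cj (U i k) * D.hd k := by
      intro k
      unfold hO
      rw [Matrix.mul_diagonal]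
      rfl
    simp only [h1]
    have h2 : ∑ k, cj (U i k) * D.hd k * V k j = D.Bf (U i) (U j) := by
      unfold NumData.Bf
      refine Finset.sum_congr rfl fun k _ => ?_
      rw [hV, Matrix.of_apply]
      change cj (U i k) * D.hd k * U j k = D.hd k * (cj (U i k) * U j k)
      ring
    rw [h2, hU1']
    unfold hO
    rw [Matrix.diagonal_apply]
    rfl
  have hinv : (Matrix.diagonal D.hdi * (V.map cj)ᵀ * hO) * V = 1 := by
    calc (Matrix.diagonal D.hdi * (V.map cj)ᵀ * hO) * V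
        = Matrix.diagonal D.hdi * ((V.map cj)ᵀ * hO * V) := by simp only [Matrix.mul_assoc]
      _ = 1 := by
          rw [hVU]
          unfold hO
          rw [Matrix.diagonal_mul_diagonal, ← Matrix.diagonal_one]
          congr 1
          funext i
          rw [mul_comm]
          exact D.hd_mul_hdi i
  set VG : GL (Fin 3) OO := ⟨V, _, mul_eq_one_comm.mp hinv, hinv⟩ with hVG
  have hVmem : VG ∈ Gam0 := by
    refine ⟨hVU, fun i j => ?_⟩
    have h := hU2' j i
    rw [Matrix.sub_apply, Matrix.one_apply]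
    change piO ^ 2 ∣ U j i - _
    have e : (if i = j then (1 : OO) else 0) = if j = i then 1 else 0 := by
      by_cases hij : i = j
      · rw [if_pos hij, if_pos hij.symm]
      · rw [if_neg hij, if_neg (Ne.symm hij)]
    rw [e]
    exact h
  obtain ⟨v, hv, hvV⟩ := exists_Gam hVmem
  refine ⟨v, hv, ?_⟩
  rw [hvV]
  have h1 := hfixv (U 2) hU3'
  set a : ℂ := hf (lift3 w) (s1 ∘ U 2) / qf (lift3 w) with ha
  have ha0 : a ≠ 0 := by
    intro h0
    rw [h0, zero_smul] at h1
    have h2 : U 2 = 0 := by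
      apply s1_comp_inj
      rw [h1]
      funext i
      simp
    have h3 := hU1' 2 2
    rw [if_pos rfl, h2, D.Bf_zero_left] at h3
    have h4 := D.al_mul
    have h5 : D.hd 2 = D.al := rfl
    rw [← h5, ← h3, zero_mul] at h4
    exact zero_ne_one h4
  apply act_eq_of_mulVec ha0
  rw [← h1]
  have h2 : lift3 0 = s1 ∘ (Pi.single 2 1 : Fin 3 → OO) := by
    funext i
    fin_cases i <;> simp [lift3]
  change cm V *ᵥ _ = _
  rw [h2, cm_mulVec]
  congr 1
  funext i
  rw [Matrix.mulVec_single_one, Matrix.col_apply]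
  rfl

end Unique

end Pool.Agent.MP_f1864b_gt.Num
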