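import Pool.Agent.Lib.MP_f1864b_gt.Num.Res

set_option autoImplicit false

/-!
The congruence subgroup of level `(1 - ζ)²` is torsion-free.
-/

namespace Pool.Agent.Dold.Num

open Complex Polynomial Matrix

/-- The entries of a matrix are divisible by `π ^ k`. -/
def Dv (k : ℕ) (X : Matrix (Fin 3) (Fin 3) OO) : Prop := ∀ i j, piO ^ k ∣ X i j

theorem Dv.exists_smul {k : ℕ} {X : Matrix (Fin 3) (Fin 3) OO} (h : Dv k X) :
    ∃ Y : Matrix (Fin 3) (Fin 3) OO, X = (piO ^ k) • Y := by
  choose Y hY using h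
  refine ⟨Matrix.of Y, Matrix.ext fun i j => ?_⟩
  rw [Matrix.smul_apply, smul_eq_mul, Matrix.of_apply, ← hY]

theorem exists_max {X : Matrix (Fin 3) (Fin 3) OO} (hX : X ≠ 0) (h2 : Dv 2 X) :
    ∃ k, 2 ≤ k ∧ Dv k X ∧ ¬ Dv (k + 1) X := by
  classical
  have hex : ∃ k, ¬ Dv k X := by
    have : ∃ i j, X i j ≠ 0 := by
      by_contra hall
      push Not at hall
      exact hX (Matrix.ext hall)
    obtain ⟨i, j, hij⟩ := this
    obtain ⟨k, hk⟩ := exists_pow_not_dvd hij
    exact ⟨k, fun h => hk (h i j)⟩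
  have hspec := Nat.find_spec hex
  have hmin : ∀ m, m < Nat.find hex → Dv m X := fun m hm => by
    have := Nat.find_min hex hm
    exact not_not.1 this
  have h3 : 3 ≤ Nat.find hex := by
    by_contra hlt
    push Not at hlt
    apply hspec
    intro i j
    exact (pow_dvd_pow _ (by omega)).trans (h2 i j)
  refine ⟨Nat.find hex - 1, by omega, hmin _ (by omega), ?_⟩
  rwa [Nat.sub_add_cancel (by omega)]

/-- The first terms of the binomial expansion in a ring. -/
theorem one_add_pow_exists {R : Type*} [Ring R] (X : R) (n : ℕ) :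
    ∃ Z : R, (1 + X) ^ n = 1 + n • X + X * X * Z := by
  induction n with
  | zero => exact ⟨0, by simp⟩
  | succ n ih =>
    obtain ⟨Z, hZ⟩ := ih
    refine ⟨(n : R) + Z * (1 + X), ?_⟩
    rw [pow_succ, hZ]
    have h1 : (n • X : R) = (n : R) * X := nsmul_eq_mul n X
    have h2 : ((n + 1) • X : R) = (n : R) * X + X := by
      rw [nsmul_eq_mul]
      push_cast
      rw [add_mul, one_mul]
    have h3 : X * (n : R) = (n : R) * X := (Nat.cast_commute n X).symm.eq
    rw [h1, h2]
    have h4 : X * X * ((n : R) + Z * (1 + X)) = (n : R) * X * X + X * X * Z * (1 + X) := by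
      rw [mul_add, ← mul_assoc, mul_assoc X X (n : R), h3, ← mul_assoc, h3]
    rw [h4]
    noncomm_ring

theorem five_expand {R : Type*} [Ring R] (X : R) :
    (1 + X) ^ 5 = 1 + 5 • X + 10 • X ^ 2 + 10 • X ^ 3 + 5 • X ^ 4 + X ^ 5 := by
  noncomm_ring

theorem no_prime_torsion {X : Matrix (Fin 3) (Fin 3) OO} (h2 : Dv 2 X) {p : ℕ} (hp : p.Prime)
    (h : (1 + X) ^ p = 1) : X = 0 := by
  by_contra hX
  obtain ⟨k, hk2, hk, hk1⟩ := exists_max hX h2
  apply hk1
  obtain ⟨Y, hY⟩ := hk.exists_smul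
  have hpi : ∀ m : ℕ, piO ^ m ≠ 0 := fun m => pow_ne_zero m piO_ne_zero
  suffices hdiv : ∀ i j, red (Y i j) = 0 by
    intro i j
    obtain ⟨y, hy⟩ := (red_eq_zero _).1 (hdiv i j)
    refine ⟨y, ?_⟩
    rw [hY, Matrix.smul_apply, smul_eq_mul, hy]
    ring
  have : Fact (Nat.Prime 5) := ⟨by norm_num⟩
  by_cases h5 : p = 5
  · subst h5
    rw [five_expand, hY] at h
    intro i j
    have h1 : (1 + 5 • (piO ^ k • Y) + 10 • (piO ^ k • Y) ^ 2 + 10 • (piO ^ k • Y) ^ 3 +
        5 • (piO ^ k • Y) ^ 4 + (piO ^ k • Y) ^ 5 : Matrix (Fin 3) (Fin 3) OO) i j =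
        (1 : Matrix (Fin 3) (Fin 3) OO) i j := by rw [h]
    simp only [_root_.smul_pow, Matrix.add_apply, Matrix.smul_apply, smul_eq_mul] at h1
    simp only [nsmul_eq_mul] at h1
    push_cast at h1
    have e5 := five_eq_pow
    have h2' : piO ^ (k + 4) * (uO * Y i j + piO * (2 * uO * piO ^ (k - 1) * (Y ^ 2) i j +
        2 * uO * piO ^ (2 * k - 1) * (Y ^ 3) i j + uO * piO ^ (3 * k - 1) * (Y ^ 4) i j +
        piO ^ (4 * k - 5) * (Y ^ 5) i j)) = 0 := by
      have a1 : piO * piO ^ (k - 1) = piO ^ k := by rw [← pow_succ']; congr 1; omega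
      have a2 : piO * piO ^ (2 * k - 1) = (piO ^ k) ^ 2 := by
        rw [← pow_succ', ← pow_mul]; congr 1; omega
      have a3 : piO * piO ^ (3 * k - 1) = (piO ^ k) ^ 3 := by
        rw [← pow_succ', ← pow_mul]; congr 1; omega
      have a4 : piO ^ (k + 4) * (piO * piO ^ (4 * k - 5)) = (piO ^ k) ^ 5 := by
        rw [← pow_succ', ← pow_add, ← pow_mul]; congr 1; omega
      calc _ = piO ^ k * (piO ^ 4 * uO) * Y i j +
            2 * (piO ^ 4 * uO) * piO ^ k * (piO * piO ^ (k - 1)) * (Y ^ 2) i j +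
            2 * (piO ^ 4 * uO) * piO ^ k * (piO * piO ^ (2 * k - 1)) * (Y ^ 3) i j +
            (piO ^ 4 * uO) * piO ^ k * (piO * piO ^ (3 * k - 1)) * (Y ^ 4) i j +
            (piO ^ (k + 4) * (piO * piO ^ (4 * k - 5))) * (Y ^ 5) i j := by ring
        _ = 0 := by
          rw [a1, a2, a3, a4, ← e5]
          linear_combination h1
    have h3 := (mul_eq_zero.1 h2').resolve_left (hpi _)
    have h4 := congrArg red h3
    rw [map_add, map_mul, map_mul, red_piO, zero_mul, add_zero, map_zero] at h4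
    exact (mul_eq_zero.1 h4).resolve_left red_uO
  · obtain ⟨Z, hZ⟩ := one_add_pow_exists X p
    rw [h, hY] at hZ
    intro i j
    have h1 := congrFun (congrFun hZ i) j
    simp only [Matrix.add_apply, Matrix.smul_apply, smul_eq_mul, Matrix.smul_mul,
      Matrix.mul_smul] at h1
    simp only [nsmul_eq_mul] at h1
    have h2' : piO ^ k * ((p : OO) * Y i j + piO * (piO ^ (k - 1) * (Y * Y * Z) i j)) = 0 := by
      have a1 : piO * piO ^ (k - 1) = piO ^ k := by rw [← pow_succ']; congr 1; omega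
      calc _ = piO ^ k * ((p : OO) * Y i j) + piO ^ k * (piO * piO ^ (k - 1)) * (Y * Y * Z) i j := by
            ring
        _ = 0 := by
          rw [a1]
          linear_combination -h1
    have h3 := (mul_eq_zero.1 h2').resolve_left (hpi _)
    have h4 := congrArg red h3
    rw [map_add, map_mul, map_mul, red_piO, zero_mul, add_zero, map_zero, map_natCast] at h4
    refine (mul_eq_zero.1 h4).resolve_left ?_
    intro h6
    rw [ZMod.natCast_eq_zero_iff] at h6
    exact h5 ((Nat.prime_dvd_prime_iff_eq (by norm_num) hp).1 h6).symm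

/-- The congruence subgroup is torsion-free. -/
theorem gam0_torsion_free {g : GL (Fin 3) OO} (hg : g ∈ Gam0) (hfin : IsOfFinOrder g) : g = 1 := by
  by_contra hne
  have hn : orderOf g ≠ 1 := fun h => hne (orderOf_eq_one_iff.1 h)
  obtain ⟨p, hp, hpd⟩ := Nat.exists_prime_and_dvd hn
  obtain ⟨m, hm⟩ := hpd
  have hord : 0 < orderOf g := hfin.orderOf_pos
  have hm0 : 0 < m := by
    rcases Nat.eq_zero_or_pos m with h | h
    · rw [h, mul_zero] at hm
      omega
    · exact h
  set k := g ^ m with hk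
  have hk1 : k ∈ Gam0 := Gam0.pow_mem hg m
  have hkp : k ^ p = 1 := by
    rw [hk, ← pow_mul, mul_comm, ← hm, pow_orderOf_eq_one]
  have hk0 : k ≠ 1 := by
    intro h1
    have h2 := orderOf_dvd_of_pow_eq_one h1
    have h3 := Nat.le_of_dvd hm0 h2
    rw [hm] at h3
    have h4 := hp.two_le
    nlinarith
  have h5 := no_prime_torsion (X := (k : Matrix (Fin 3) (Fin 3) OO) - 1) hk1.2 hp (by
    rw [add_sub_cancel, ← Units.val_pow_eq_pow_val, hkp, Units.val_one])
  apply hk0
  apply Units.ext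
  rw [sub_eq_zero] at h5
  rw [h5, Units.val_one]

end Pool.Agent.Dold.Num
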